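import Mathlib

/-!
# GW OneSum: the one-variable sum (MP_b63d87_nt, helper25)

For `1 - q ≤ δ ≤ 1` the sum over `k` of `q ^ k / (max (q ^ k) δ * max (1 - q ^ k) δ)` is at most
`C (1 - q) ^ (-(1 + 2 η))`.
-/

set_option autoImplicit false

namespace Pool.Agent.H25.GW

/-- the weight of one variable -/
noncomputable def vt (q δ : ℝ) (k : ℕ) : ℝ := q ^ k / (max (q ^ k) δ * max (1 - q ^ k) δ)

theorem vt_nonneg {q δ : ℝ} (h0 : 0 < q) (hδ : 0 < δ) (k : ℕ) : 0 ≤ vt q δ k := by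
  unfold vt
  have h1 : 0 < max (q ^ k) δ := lt_max_of_lt_right hδ
  have h2 : 0 < max (1 - q ^ k) δ := lt_max_of_lt_right hδ
  positivity

theorem frac_le_rpow {x δ η : ℝ} (hx : 0 < x) (hδ : 0 < δ) (hη0 : 0 ≤ η) (hη1 : η ≤ 1) :
    x / max x δ ≤ x ^ η * δ ^ (-η) := by
  have h1 : x ^ η * δ ^ (-η) = (x / δ) ^ η := by
    rw [Real.div_rpow hx.le hδ.le, Real.rpow_neg hδ.le, div_eq_mul_inv]
  rw [h1]
  rcases le_total δ x with h | h
  · rw [max_eq_left h, div_self hx.ne']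
    exact Real.one_le_rpow ((one_le_div hδ).2 h) hη0
  · rw [max_eq_right h]
    have h2 : x / δ ≤ 1 := (div_le_one hδ).2 h
    calc x / δ = (x / δ) ^ (1 : ℝ) := (Real.rpow_one _).symm
      _ ≤ (x / δ) ^ η := Real.rpow_le_rpow_of_exponent_ge (by positivity) h2 hη1

theorem inv_one_sub_pow_le {q : ℝ} (h0 : 0 < q) (h1 : q < 1) {k : ℕ} (hk : 1 ≤ k) :
    (1 - q ^ k)⁻¹ ≤ 1 + 1 / (k * (1 - q)) := by
  have ht : 0 < 1 - q := by linarith
  have hk' : (0 : ℝ) < k := by exact_mod_cast hk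
  have hkt : 0 < k * (1 - q) := by positivity
  have h2 : (1 + k * (1 - q)) * q ^ k ≤ 1 := by
    have h3 : 1 + (k : ℝ) * (1 - q) ≤ (1 + (1 - q)) ^ k :=
      one_add_mul_le_pow (by linarith) k
    calc (1 + k * (1 - q)) * q ^ k ≤ (1 + (1 - q)) ^ k * q ^ k :=
          mul_le_mul_of_nonneg_right h3 (by positivity)
      _ = ((1 + (1 - q)) * q) ^ k := (mul_pow _ _ _).symm
      _ ≤ 1 := pow_le_one₀ (by nlinarith) (by nlinarith [sq_nonneg (1 - q)])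
  have h4 : q ^ k < 1 := pow_lt_one₀ h0.le h1 (by omega)
  have h5 : 0 < 1 - q ^ k := by linarith
  have h6 : 1 + 1 / (k * (1 - q)) = (1 + k * (1 - q)) / (k * (1 - q)) := by
    field_simp
    ring
  rw [h6, inv_eq_one_div, div_le_div_iff₀ h5 hkt]
  nlinarith

theorem vt_succ_le {q δ η : ℝ} (h0 : 0 < q) (h1 : q < 1) (hδ : 0 < δ) (hη0 : 0 ≤ η) (hη1 : η ≤ 1)
    (k : ℕ) : vt q δ (k + 1) ≤
      δ ^ (-η) * ((q ^ η) ^ (k + 1) + (1 - q)⁻¹ * ((q ^ η) ^ (k + 1) / ((k : ℝ) + 1))) := by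
  have hq : 0 < q ^ (k + 1) := by positivity
  have h2 := frac_le_rpow hq hδ hη0 hη1
  have h3 : (q ^ (k + 1)) ^ η = (q ^ η) ^ (k + 1) := by
    rw [← Real.rpow_natCast, ← Real.rpow_mul h0.le, mul_comm, Real.rpow_mul h0.le,
      Real.rpow_natCast]
  have h4 := inv_one_sub_pow_le h0 h1 (k := k + 1) (by omega)
  have h5 : q ^ (k + 1) < 1 := pow_lt_one₀ h0.le h1 (by omega)
  have h6 : (max (1 - q ^ (k + 1)) δ)⁻¹ ≤ (1 - q ^ (k + 1))⁻¹ :=
    inv_anti₀ (by linarith) (le_max_left _ _)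
  have h7 : vt q δ (k + 1) =
      q ^ (k + 1) / max (q ^ (k + 1)) δ * (max (1 - q ^ (k + 1)) δ)⁻¹ := by
    unfold vt
    rw [div_mul_eq_div_div, ← div_eq_mul_inv]
  have h8 : 0 ≤ q ^ (k + 1) / max (q ^ (k + 1)) δ := by
    have : 0 < max (q ^ (k + 1)) δ := lt_max_of_lt_right hδ
    positivity
  have h9 : 0 ≤ 1 + 1 / (((k + 1 : ℕ) : ℝ) * (1 - q)) := by
    have : 0 < 1 - q := by linarith
    positivity
  rw [h7]
  calc _ ≤ (q ^ (k + 1)) ^ η * δ ^ (-η) * (1 + 1 / (((k + 1 : ℕ) : ℝ) * (1 - q))) :=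
        mul_le_mul h2 (h6.trans h4) (by
          have : 0 < max (1 - q ^ (k + 1)) δ := lt_max_of_lt_right hδ
          positivity) (h8.trans h2)
    _ = _ := by
        rw [h3]
        have ht : (1 - q) ≠ 0 := by linarith
        push_cast
        field_simp

theorem one_sum {η : ℝ} (hη0 : 0 < η) (hη1 : η ≤ 1) : ∃ C : ℝ, 0 < C ∧ ∀ q δ : ℝ, 0 < q → q < 1 →
    1 - q ≤ δ → δ ≤ 1 → Summable (vt q δ) ∧
      ∑' k, vt q δ k ≤ C * (1 - q) ^ (-(1 + 2 * η)) := by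
  refine ⟨1 + η⁻¹ + η⁻¹ * η ^ (-η), by positivity, fun q δ h0 h1 hδ hδ1 => ?_⟩
  have ht : 0 < 1 - q := by linarith
  have hδ0 : 0 < δ := ht.trans_le hδ
  set y : ℝ := q ^ η with hy
  have hy0 : 0 < y := Real.rpow_pos_of_pos h0 _
  have hy1 : η * (1 - q) ≤ 1 - y := by
    have h2 := rpow_one_add_le_one_add_mul_self (s := q - 1) (by linarith) hη0.le hη1
    have h3 : 1 + (q - 1) = q := by ring
    rw [h3] at h2
    linarith
  have hy2 : y < 1 := by nlinarith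
  have hyt : 0 < η * (1 - q) := by positivity
  -- the majorant
  have hg := (hasSum_geometric_of_lt_one hy0.le hy2).mul_left y
  have hl := Real.hasSum_pow_div_log_of_abs_lt_one (x := y) (by rwa [abs_of_pos hy0])
  have hmaj : HasSum (fun k : ℕ => δ ^ (-η) * (y ^ (k + 1) +
      (1 - q)⁻¹ * (y ^ (k + 1) / ((k : ℝ) + 1))))
      (δ ^ (-η) * (y * (1 - y)⁻¹ + (1 - q)⁻¹ * -Real.log (1 - y))) := by
    refine HasSum.mul_left _ (HasSum.add ?_ (HasSum.mul_left _ hl))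
    convert hg using 2 with k
    rw [pow_succ, mul_comm]
  have hs1 : Summable fun k => vt q δ (k + 1) :=
    Summable.of_nonneg_of_le (fun k => vt_nonneg h0 hδ0 _)
      (fun k => vt_succ_le h0 h1 hδ0 hη0.le hη1 k) hmaj.summable
  have hs : Summable (vt q δ) := (summable_nat_add_iff 1).1 hs1
  refine ⟨hs, ?_⟩
  rw [hs.tsum_eq_zero_add]
  have h2 : ∑' k, vt q δ (k + 1) ≤
      δ ^ (-η) * (y * (1 - y)⁻¹ + (1 - q)⁻¹ * -Real.log (1 - y)) :=
    (hs1.tsum_le_tsum (fun k => vt_succ_le h0 h1 hδ0 hη0.le hη1 k) hmaj.summable).trans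
      hmaj.tsum_eq.le
  have h3 : vt q δ 0 ≤ (1 - q)⁻¹ := by
    unfold vt
    have h4 : max (1 - q ^ 0) δ = δ := by
      rw [pow_zero, sub_self]
      exact max_eq_right hδ0.le
    rw [h4, pow_zero, max_eq_left hδ1, one_mul, one_div]
    exact inv_anti₀ ht hδ
  set T : ℝ := (1 - q) ^ (-η) with hT
  have hT1 : 1 ≤ T := by
    rw [hT, Real.rpow_neg ht.le]
    exact (one_le_inv₀ (Real.rpow_pos_of_pos ht _)).2
      (Real.rpow_le_one ht.le (by linarith) hη0.le)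
  have h4 : δ ^ (-η) ≤ T := Real.rpow_le_rpow_of_nonpos ht hδ (by linarith)
  have h5 : y * (1 - y)⁻¹ ≤ η⁻¹ * (1 - q)⁻¹ := by
    have h6 : (1 - y)⁻¹ ≤ (η * (1 - q))⁻¹ := inv_anti₀ hyt hy1
    rw [mul_inv] at h6
    have h7 : 0 ≤ (1 - y)⁻¹ := inv_nonneg.2 (by linarith)
    calc y * (1 - y)⁻¹ ≤ 1 * (1 - y)⁻¹ := mul_le_mul_of_nonneg_right hy2.le h7
      _ ≤ _ := by rw [one_mul]; exact h6
  have h6 : -Real.log (1 - y) ≤ η⁻¹ * η ^ (-η) * T := by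
    have h7 : -Real.log (1 - y) ≤ Real.log (η * (1 - q))⁻¹ := by
      rw [Real.log_inv]
      exact neg_le_neg (Real.log_le_log hyt hy1)
    have h8 := Real.log_le_rpow_div (x := (η * (1 - q))⁻¹) (by positivity) hη0
    have h9 : ((η * (1 - q))⁻¹) ^ η = η ^ (-η) * T := by
      rw [Real.inv_rpow hyt.le, Real.mul_rpow hη0.le ht.le, mul_inv, hT, Real.rpow_neg hη0.le,
        Real.rpow_neg ht.le]
    rw [h9] at h8
    calc -Real.log (1 - y) ≤ η ^ (-η) * T / η := h7.trans h8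
      _ = _ := by rw [div_eq_mul_inv]; ring
  have h7 : (1 - q) ^ (-(1 + 2 * η)) = (1 - q)⁻¹ * T ^ 2 := by
    have : -(1 + 2 * η) = -1 + -η * 2 := by ring
    rw [this, Real.rpow_add ht, Real.rpow_neg_one, Real.rpow_mul ht.le, hT]
    norm_cast
  rw [h7]
  have hi : 0 < (1 - q)⁻¹ := inv_pos.2 ht
  have hη' : 0 < η⁻¹ := inv_pos.2 hη0
  have hηη : 0 < η ^ (-η) := Real.rpow_pos_of_pos hη0 _
  have hl0 : 0 ≤ -Real.log (1 - y) := by
    have := Real.log_nonpos (x := 1 - y) (by linarith) (by linarith)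
    linarith
  calc vt q δ 0 + ∑' k, vt q δ (k + 1)
      ≤ (1 - q)⁻¹ + T * (η⁻¹ * (1 - q)⁻¹ + (1 - q)⁻¹ * (η⁻¹ * η ^ (-η) * T)) := by
        refine add_le_add h3 (h2.trans ?_)
        refine mul_le_mul h4 ?_ ?_ (by linarith)
        · exact add_le_add h5 (mul_le_mul_of_nonneg_left h6 hi.le)
        · have : 0 ≤ (1 - y)⁻¹ := inv_nonneg.2 (by linarith)
          positivity
    _ ≤ _ := by
        have h8 : T ≤ T ^ 2 := by nlinarith
        have h9 : 1 ≤ T ^ 2 := by nlinarith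
        have e : (1 + η⁻¹ + η⁻¹ * η ^ (-η)) * ((1 - q)⁻¹ * T ^ 2) -
            ((1 - q)⁻¹ + T * (η⁻¹ * (1 - q)⁻¹ + (1 - q)⁻¹ * (η⁻¹ * η ^ (-η) * T))) =
            (1 - q)⁻¹ * (T ^ 2 - 1) + η⁻¹ * (1 - q)⁻¹ * (T ^ 2 - T) := by ring
        have h10 : 0 ≤ (1 - q)⁻¹ * (T ^ 2 - 1) := mul_nonneg hi.le (by linarith)
        have h11 : 0 ≤ η⁻¹ * (1 - q)⁻¹ * (T ^ 2 - T) := mul_nonneg (by positivity) (by linarith)
        linarith

end Pool.Agent.H25.GW
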