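import Mathlib

/-!
# GW Round: rounding of the exponents (MP_b63d87_nt, helper25)

`u a ∈ [0, 1]`, `0 < lam < 1`, `2 ≤ N`. For `1 ≤ j ≤ N - 1` let `Z j = {a | u a ≤ lam ^ j}`,
`O j = {a | 1 - u a ≤ lam ^ (N - j)}` for `col a = true` and the same with `j` and `N - j` exchanged
for `col a = false`. If `|A| ≤ |Z j| + |O j| + w` for all these `j` then
`∏ max (u a) (lam ^ N) * max (1 - u a) (lam ^ N) ≤ lam ^ ((N - 1) * (|A| - w))`.
-/

set_option autoImplicit false

namespace Pool.Agent.H25.GW

open Finset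

/-- the number of thresholds which are at least `x` -/
noncomputable def cnt (lam : ℝ) (N : ℕ) (x : ℝ) : ℕ := by
  classical
  exact ((Icc 1 (N - 1)).filter fun j => x ≤ lam ^ j).card

theorem max_le_pow_cnt {lam : ℝ} (h0 : 0 < lam) (h1 : lam < 1) (N : ℕ) {x : ℝ} (hx : x ≤ 1) :
    max x (lam ^ N) ≤ lam ^ cnt lam N x := by
  classical
  have hc : cnt lam N x = ((Icc 1 (N - 1)).filter fun j => x ≤ lam ^ j).card := by
    unfold cnt
    congr
  rcases ((Icc 1 (N - 1)).filter fun j => x ≤ lam ^ j).eq_empty_or_nonempty with he | hne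
  · rw [hc, he, card_empty, pow_zero]
    exact max_le hx (pow_le_one₀ h0.le h1.le)
  · set M := ((Icc 1 (N - 1)).filter fun j => x ≤ lam ^ j).max' hne with hM
    have hMm := max'_mem _ hne
    rw [← hM, mem_filter, mem_Icc] at hMm
    have hcard : cnt lam N x ≤ M := by
      rw [hc]
      calc ((Icc 1 (N - 1)).filter fun j => x ≤ lam ^ j).card ≤ (Icc 1 M).card := by
            refine card_le_card fun j hj => ?_
            have h2 := le_max' _ j hj
            rw [mem_filter, mem_Icc] at hj
            exact mem_Icc.2 ⟨hj.1.1, h2⟩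
        _ = M := by simp
    have h3 : lam ^ M ≤ lam ^ cnt lam N x := pow_le_pow_of_le_one h0.le h1.le hcard
    refine (max_le ?_ ?_).trans h3
    · exact hMm.2
    · exact pow_le_pow_of_le_one h0.le h1.le (by omega)

theorem cnt_refl {lam : ℝ} (N : ℕ) (x : ℝ) [∀ j : ℕ, Decidable (x ≤ lam ^ (N - j))] :
    ((Icc 1 (N - 1)).filter fun j => x ≤ lam ^ (N - j)).card = cnt lam N x := by
  classical
  unfold cnt
  refine card_nbij' (fun j => N - j) (fun j => N - j) ?_ ?_ ?_ ?_
  · intro j hj
    simp only [coe_filter, mem_Icc, Set.mem_ofPred_eq] at hj ⊢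
    exact ⟨by omega, hj.2⟩
  · intro j hj
    simp only [coe_filter, mem_Icc, Set.mem_ofPred_eq] at hj ⊢
    refine ⟨by omega, ?_⟩
    rw [Nat.sub_sub_self (by omega)]
    exact hj.2
  · intro j hj
    simp only [coe_filter, mem_Icc, Set.mem_ofPred_eq] at hj
    exact Nat.sub_sub_self (by omega)
  · intro j hj
    simp only [coe_filter, mem_Icc, Set.mem_ofPred_eq] at hj
    exact Nat.sub_sub_self (by omega)

/-- the exponent of the threshold number `j` for `u a` -/
def ex (N : ℕ) (c : Bool) (j : ℕ) : ℕ := if c then j else N - j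

theorem round_le {A : Type} [Fintype A] (col : A → Bool) (u : A → ℝ) {lam : ℝ} (h0 : 0 < lam)
    (h1 : lam < 1) {N : ℕ} (hu0 : ∀ a, 0 ≤ u a) (hu1 : ∀ a, u a ≤ 1) (w : ℕ)
    (hw : ∀ j ∈ Icc 1 (N - 1), ∃ Z O : Finset A,
      (∀ a ∈ Z, u a ≤ lam ^ ex N (col a) j) ∧ (∀ a ∈ O, 1 - u a ≤ lam ^ (N - ex N (col a) j)) ∧
      Fintype.card A ≤ Z.card + O.card + w) :
    ∏ a, (max (u a) (lam ^ N) * max (1 - u a) (lam ^ N)) ≤
      lam ^ ((N - 1) * (Fintype.card A - w)) := by
  classical
  -- the pointwise bound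
  have hp : ∏ a, (max (u a) (lam ^ N) * max (1 - u a) (lam ^ N)) ≤
      lam ^ ∑ a, (cnt lam N (u a) + cnt lam N (1 - u a)) := by
    rw [← prod_pow_eq_pow_sum]
    refine prod_le_prod (fun a _ => ?_) fun a _ => ?_
    · exact mul_nonneg (le_max_of_le_left (hu0 a)) (le_max_of_le_right (by positivity))
    · rw [pow_add]
      refine mul_le_mul (max_le_pow_cnt h0 h1 N (hu1 a)) (max_le_pow_cnt h0 h1 N ?_) ?_
        (by positivity)
      · have := hu0 a
        linarith
      · exact le_max_of_le_right (by positivity)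
  refine hp.trans (pow_le_pow_of_le_one h0.le h1.le ?_)
  -- double counting
  have hz : ∀ a, cnt lam N (u a) =
      ∑ j ∈ Icc 1 (N - 1), if u a ≤ lam ^ ex N (col a) j then 1 else 0 := by
    intro a
    rw [← card_filter]
    cases h : col a
    · rw [← cnt_refl]
      simp [ex]
    · unfold cnt
      simp only [ex, if_true]
  have ho : ∀ a, cnt lam N (1 - u a) =
      ∑ j ∈ Icc 1 (N - 1), if 1 - u a ≤ lam ^ (N - ex N (col a) j) then 1 else 0 := by
    intro a
    rw [← card_filter]
    cases h : col a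
    · unfold cnt
      simp only [ex]
      congr 1
      ext j
      simp only [mem_filter, mem_Icc]
      refine and_congr_right fun hj => ?_
      rw [if_neg (by simp), Nat.sub_sub_self (by omega)]
    · rw [← cnt_refl]
      simp [ex]
  have hs : ∑ a, (cnt lam N (u a) + cnt lam N (1 - u a)) =
      ∑ j ∈ Icc 1 (N - 1), ((∑ a, if u a ≤ lam ^ ex N (col a) j then 1 else 0) +
        ∑ a, if 1 - u a ≤ lam ^ (N - ex N (col a) j) then 1 else 0) := by
    rw [sum_add_distrib, sum_add_distrib]
    congr 1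
    · rw [sum_comm]
      exact sum_congr rfl fun a _ => hz a
    · rw [sum_comm]
      exact sum_congr rfl fun a _ => ho a
  rw [hs]
  calc (N - 1) * (Fintype.card A - w) = ∑ _j ∈ Icc 1 (N - 1), (Fintype.card A - w) := by
        rw [sum_const, Nat.card_Icc, smul_eq_mul]
        simp
    _ ≤ _ := by
        refine sum_le_sum fun j hj => ?_
        obtain ⟨Z, O, hZ, hO, hc⟩ := hw j hj
        have h2 : Z.card ≤ ∑ a, if u a ≤ lam ^ ex N (col a) j then 1 else 0 := by
          rw [← card_filter]
          exact card_le_card fun a ha => mem_filter.2 ⟨mem_univ _, hZ a ha⟩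
        have h3 : O.card ≤ ∑ a, if 1 - u a ≤ lam ^ (N - ex N (col a) j) then 1 else 0 := by
          rw [← card_filter]
          exact card_le_card fun a ha => mem_filter.2 ⟨mem_univ _, hO a ha⟩
        omega

end Pool.Agent.H25.GW
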