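import Pool.Agent.H93.GS.RealBd
import Pool.Agent.H93.GS.RealSer
import Pool.Agent.H25.GW.Round
import Pool.Agent.H25.GW.OneSum

/-!
# GW Upper: the growth of the reduced series (MP_b63d87_nt, helper25)

If every cover `(Z, O)` has `|A| ≤ |Z| + |O| + w` then the reduced series is
`O((1 - q) ^ (-(w + ε)))` for `q → 1`.
-/

set_option autoImplicit false

namespace Pool.Agent.H25.GW

open Finset H93GS

/-- covers -/
def Cov {A B : Type} (adj : A → B → Prop) (aadj : A → A → Prop) (b : A → B) (Z O : Finset A) :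
    Prop :=
  Disjoint Z O ∧ (∀ a a', a ≠ a' → adj a' (b a) → a ∈ Z ∨ a' ∈ O) ∧
  (∀ s, (∀ a, b a ≠ s) → ∀ a, adj a s → a ∈ O) ∧ ∀ a a', aadj a a' → a ∈ O ∨ a' ∈ O

section

variable {A B : Type} [Fintype A] [Fintype B]
  (adj : A → B → Prop) [∀ a s, Decidable (adj a s)] (E : (A → ℕ) → ℕ) (b : A → B)

theorem ex_add {N j : ℕ} (hj : j ∈ Icc 1 (N - 1)) (c : Bool) :
    1 ≤ ex N c j ∧ ex N c j + (N - ex N c j) = N ∧ 1 ≤ N - ex N c j := by
  rw [mem_Icc] at hj
  unfold ex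
  split_ifs <;> omega

theorem ex_opp {N j : ℕ} (hj : j ∈ Icc 1 (N - 1)) {c c' : Bool} (h : c ≠ c') :
    ex N c' j = N - ex N c j := by
  rw [mem_Icc] at hj
  unfold ex
  cases c <;> cases c' <;> simp_all <;> omega

/-- all penalties are small: the product of the maxima is small -/
theorem small_case (aadj : A → A → Prop) (col : A → Bool)
    (hc1 : ∀ a a', adj a' (b a) → col a = col a') (hc2 : ∀ a a', aadj a a' → col a ≠ col a')
    (w : ℕ) (hw : ∀ Z O, Cov adj aadj b Z O → Fintype.card A ≤ Z.card + O.card + w)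
    (u : A → ℝ) (hu0 : ∀ a, 0 ≤ u a) (hu1 : ∀ a, u a ≤ 1) {lam : ℝ} (hl0 : 0 < lam)
    (hl1 : lam < 1 / 2) {N : ℕ}
    (hp1 : ∀ a a', a ≠ a' → adj a' (b a) → u a * (1 - u a') ≤ lam ^ N)
    (hp2 : ∀ s, (∀ a, b a ≠ s) → ∀ a, adj a s → 1 - u a ≤ lam ^ N)
    (hp3 : ∀ a a', aadj a a' → (1 - u a) * (1 - u a') ≤ lam ^ N) :
    ∏ a, (max (u a) (lam ^ N) * max (1 - u a) (lam ^ N)) ≤
      lam ^ ((N - 1) * (Fintype.card A - w)) := by
  classical
  refine round_le col u hl0 (by linarith) hu0 hu1 w fun j hj => ?_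
  refine ⟨univ.filter fun a => u a ≤ lam ^ ex N (col a) j,
    univ.filter fun a => 1 - u a ≤ lam ^ (N - ex N (col a) j), fun a ha => (mem_filter.1 ha).2,
    fun a ha => (mem_filter.1 ha).2, hw _ _ ⟨?_, ?_, ?_, ?_⟩⟩
  · rw [Finset.disjoint_left]
    intro a ha ha'
    have h2 := (mem_filter.1 ha).2
    have h3 := (mem_filter.1 ha').2
    obtain ⟨h4, -, h5⟩ := ex_add hj (col a)
    have h6 : lam ^ ex N (col a) j ≤ lam := by
      calc lam ^ ex N (col a) j ≤ lam ^ 1 := pow_le_pow_of_le_one hl0.le (by linarith) h4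
        _ = lam := pow_one _
    have h7 : lam ^ (N - ex N (col a) j) ≤ lam := by
      calc lam ^ (N - ex N (col a) j) ≤ lam ^ 1 := pow_le_pow_of_le_one hl0.le (by linarith) h5
        _ = lam := pow_one _
    linarith
  · intro a a' hne h
    by_contra hcon
    rw [not_or, mem_filter, mem_filter] at hcon
    simp only [mem_univ, true_and, not_le] at hcon
    obtain ⟨h2, h3⟩ := hcon
    rw [← hc1 a a' h] at h3
    have h4 := hp1 a a' hne h
    have h5 : lam ^ N = lam ^ ex N (col a) j * lam ^ (N - ex N (col a) j) := by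
      rw [← pow_add, (ex_add hj (col a)).2.1]
    have h6 : lam ^ ex N (col a) j * lam ^ (N - ex N (col a) j) < u a * (1 - u a') :=
      mul_lt_mul'' h2 h3 (by positivity) (by positivity)
    linarith
  · intro s hs a h
    rw [mem_filter]
    refine ⟨mem_univ _, (hp2 s hs a h).trans ?_⟩
    exact pow_le_pow_of_le_one hl0.le (by linarith) (by omega)
  · intro a a' h
    by_contra hcon
    rw [not_or, mem_filter, mem_filter] at hcon
    simp only [mem_univ, true_and, not_le] at hcon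
    obtain ⟨h2, h3⟩ := hcon
    have h7 : N - ex N (col a') j = ex N (col a) j := by
      rw [ex_opp hj (hc2 a a' h)]
      have := ex_add hj (col a)
      omega
    rw [h7] at h3
    have h4 := hp3 a a' h
    have h5 : lam ^ N = lam ^ (N - ex N (col a) j) * lam ^ ex N (col a) j := by
      rw [← pow_add, add_comm, (ex_add hj (col a)).2.1]
    have h6 : lam ^ (N - ex N (col a) j) * lam ^ ex N (col a) j < (1 - u a) * (1 - u a') :=
      mul_lt_mul'' h2 h3 (by positivity) (by positivity)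
    linarith

theorem upper_point (hb : Function.Injective b) (hadj : ∀ a, adj a (b a)) (aadj : A → A → Prop)
    (hE : ∀ n a a', aadj a a' → n a * n a' ≤ E n) (col : A → Bool)
    (hc1 : ∀ a a', adj a' (b a) → col a = col a') (hc2 : ∀ a a', aadj a a' → col a ≠ col a')
    (w : ℕ) (hw : ∀ Z O, Cov adj aadj b Z O → Fintype.card A ≤ Z.card + O.card + w)
    {q : ℝ} (h0 : 0 < q) (h1 : q < 1) {lam : ℝ} (hl0 : 0 < lam) (hl1 : lam < 1 / 2) {N : ℕ}
    (hbig : Real.exp (-(q / (1 - q) * lam ^ N)) ≤ (1 - q) ^ Fintype.card A) (n : A → ℕ) :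
    gt adj E q n ≤ (1 - q) ^ Fintype.card A * (∏ a, q ^ n a) +
      lam ^ ((N - 1) * (Fintype.card A - w)) * ∏ a, vt q (lam ^ N) (n a) := by
  have ht : 0 < 1 - q := by linarith
  have hθ : 0 < q / (1 - q) := by positivity
  have hδ : 0 < lam ^ N := by positivity
  have hu0 : ∀ a, 0 < q ^ n a := fun a => by positivity
  have hu1 : ∀ a, q ^ n a ≤ 1 := fun a => pow_le_one₀ h0.le h1.le
  have hP : 0 ≤ ∏ a, q ^ n a := Finset.prod_nonneg fun a _ => (hu0 a).le
  have hV : 0 ≤ ∏ a, vt q (lam ^ N) (n a) := Finset.prod_nonneg fun a _ => vt_nonneg h0 hδ _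
  -- a large penalty
  have big : ∀ x : ℝ, lam ^ N < x →
      q ^ E n * ∏ s, realbdRho adj b q n s ≤ Real.exp (-(q / (1 - q) * x)) →
      gt adj E q n ≤ (1 - q) ^ Fintype.card A * (∏ a, q ^ n a) +
      lam ^ ((N - 1) * (Fintype.card A - w)) * ∏ a, vt q (lam ^ N) (n a) := by
    intro x hx h2
    rw [realbd_gt adj b E hb]
    have h3 : q ^ E n * ∏ s, realbdRho adj b q n s ≤ (1 - q) ^ Fintype.card A := by
      refine h2.trans (le_trans (Real.exp_le_exp.2 (neg_le_neg ?_)) hbig)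
      exact mul_le_mul_of_nonneg_left hx.le hθ.le
    have h4 : (∏ a, q ^ n a) * (q ^ E n * ∏ s, realbdRho adj b q n s) ≤
        (1 - q) ^ Fintype.card A * (∏ a, q ^ n a) := by
      rw [mul_comm]
      exact mul_le_mul_of_nonneg_right h3 hP
    have h5 : 0 ≤ lam ^ ((N - 1) * (Fintype.card A - w)) * ∏ a, vt q (lam ^ N) (n a) :=
      mul_nonneg (by positivity) hV
    linarith
  by_cases hp1 : ∀ a a', a ≠ a' → adj a' (b a) → q ^ n a * (1 - q ^ n a') ≤ lam ^ N
  · by_cases hp2 : ∀ s, (∀ a, b a ≠ s) → ∀ a, adj a s → 1 - q ^ n a ≤ lam ^ N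
    · by_cases hp3 : ∀ a a', aadj a a' → (1 - q ^ n a) * (1 - q ^ n a') ≤ lam ^ N
      · have h2 := small_case adj b aadj col hc1 hc2 w hw (fun a => q ^ n a)
          (fun a => (hu0 a).le) hu1 hl0 hl1 hp1 hp2 hp3
        have h3 : ∏ a, q ^ n a = (∏ a, vt q (lam ^ N) (n a)) *
            ∏ a, (max (q ^ n a) (lam ^ N) * max (1 - q ^ n a) (lam ^ N)) := by
          rw [← Finset.prod_mul_distrib]
          refine Finset.prod_congr rfl fun a _ => ?_
          unfold vt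
          have h4 : 0 < max (q ^ n a) (lam ^ N) := lt_max_of_lt_right hδ
          have h5 : 0 < max (1 - q ^ n a) (lam ^ N) := lt_max_of_lt_right hδ
          field_simp
        have h4 := realser_le adj E b hb hadj h0 h1 n
        have h5 : ∏ a, q ^ n a ≤
            lam ^ ((N - 1) * (Fintype.card A - w)) * ∏ a, vt q (lam ^ N) (n a) := by
          rw [h3, mul_comm]
          exact mul_le_mul_of_nonneg_right h2 hV
        have h6 : 0 ≤ (1 - q) ^ Fintype.card A * (∏ a, q ^ n a) := by positivity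
        linarith
      · push Not at hp3
        obtain ⟨a, a', h, h2⟩ := hp3
        exact big _ h2 (realbd_p3 adj b E hb hadj aadj hE h0 h1 n h)
    · push Not at hp2
      obtain ⟨s, hs, a, h, h2⟩ := hp2
      exact big _ h2 (realbd_p2 adj b hb hadj h0 h1 n (E n) hs h)
  · push Not at hp1
    obtain ⟨a, a', hne, h, h2⟩ := hp1
    exact big _ h2 (realbd_p1 adj b hb hadj h0 h1 n (E n) hne h)

theorem upper_sum (hb : Function.Injective b) (hadj : ∀ a, adj a (b a)) (aadj : A → A → Prop)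
    (hE : ∀ n a a', aadj a a' → n a * n a' ≤ E n) (col : A → Bool)
    (hc1 : ∀ a a', adj a' (b a) → col a = col a') (hc2 : ∀ a a', aadj a a' → col a ≠ col a')
    (w : ℕ) (hw : ∀ Z O, Cov adj aadj b Z O → Fintype.card A ≤ Z.card + O.card + w)
    {q : ℝ} (h0 : 0 < q) (h1 : q < 1) {lam : ℝ} (hl0 : 0 < lam) (hl1 : lam < 1 / 2) {N : ℕ}
    (hbig : Real.exp (-(q / (1 - q) * lam ^ N)) ≤ (1 - q) ^ Fintype.card A)
    {V : ℝ} (hs : Summable (vt q (lam ^ N))) (hV : ∑' k, vt q (lam ^ N) k ≤ V) :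
    ∑' n : A → ℕ, gt adj E q n ≤ 1 +
      lam ^ ((N - 1) * (Fintype.card A - w)) * V ^ Fintype.card A := by
  have ht : 0 < 1 - q := by linarith
  have hδ : 0 < lam ^ N := by positivity
  obtain ⟨h2, h3⟩ := realser_geo (A := A) h0 h1
  obtain ⟨h4, h5⟩ := pi_real (ι := A) (f := fun _ k => vt q (lam ^ N) k)
    (fun _ _ => vt_nonneg h0 hδ _) fun _ => hs
  have h6 := (h2.mul_left ((1 - q) ^ Fintype.card A)).add
    (h4.mul_left (lam ^ ((N - 1) * (Fintype.card A - w))))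
  have h7 := (gt_real_summable adj E b hb hadj h0 h1).tsum_le_tsum
    (upper_point adj E b hb hadj aadj hE col hc1 hc2 w hw h0 h1 hl0 hl1 hbig) h6
  refine h7.trans ?_
  rw [(h2.mul_left _).tsum_add (h4.mul_left _), tsum_mul_left, tsum_mul_left, h3, h5,
    Finset.prod_const, Finset.card_univ]
  have h8 : (1 - q) ^ Fintype.card A * (1 - q)⁻¹ ^ Fintype.card A = 1 := by
    rw [← mul_pow, mul_inv_cancel₀ ht.ne', one_pow]
  rw [h8]
  have h9 : 0 ≤ ∑' k, vt q (lam ^ N) k := tsum_nonneg fun k => vt_nonneg h0 hδ _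
  gcongr

theorem rpow_large {p K : ℝ} (hp : 0 < p) (hK : 0 < K) {t : ℝ} (ht : 0 < t)
    (h : t ≤ K ^ (-p⁻¹)) : K ≤ t ^ (-p) := by
  have h2 := Real.rpow_le_rpow_of_nonpos ht h (z := -p) (by linarith)
  rw [← Real.rpow_mul hK.le] at h2
  have h3 : -p⁻¹ * -p = 1 := by field_simp
  rwa [h3, Real.rpow_one] at h2

/-- the exponential beats the power -/
theorem exp_small {η t q : ℝ} (hη0 : 0 < η) {m : ℕ} (ht : 0 < t) (hq : 1 / 2 ≤ q)
    (h : 4 * (m : ℝ) / η ≤ t ^ (-(η / 2))) :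
    Real.exp (-(q / t * t ^ (1 - η))) ≤ t ^ m := by
  have h2 : t ^ m = Real.exp (-((m : ℝ) * -Real.log t)) := by
    rw [mul_neg, neg_neg, Real.exp_nat_mul, Real.exp_log ht]
  rw [h2]
  refine Real.exp_le_exp.2 (neg_le_neg ?_)
  have h3 : t ^ (1 - η) = t * t ^ (-η) := by
    rw [sub_eq_add_neg, Real.rpow_add ht, Real.rpow_one]
  have h4 : q / t * t ^ (1 - η) = q * t ^ (-η) := by
    rw [h3]
    field_simp
  have h5 : -Real.log t ≤ t ^ (-(η / 2)) / (η / 2) := by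
    have h6 := Real.log_le_rpow_div (x := t⁻¹) (by positivity) (ε := η / 2) (by positivity)
    rw [Real.log_inv, Real.inv_rpow ht.le, ← Real.rpow_neg ht.le] at h6
    exact h6
  have h7 : t ^ (-η) = t ^ (-(η / 2)) * t ^ (-(η / 2)) := by
    rw [← Real.rpow_add ht]
    congr 1
    ring
  rw [h4, h7]
  have hT : 0 < t ^ (-(η / 2)) := Real.rpow_pos_of_pos ht _
  have hm : (0 : ℝ) ≤ m := Nat.cast_nonneg m
  calc (m : ℝ) * -Real.log t ≤ m * (t ^ (-(η / 2)) / (η / 2)) := mul_le_mul_of_nonneg_left h5 hm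
    _ = 1 / 2 * ((4 * (m : ℝ) / η) * t ^ (-(η / 2))) := by
        field_simp
        ring
    _ ≤ q * (t ^ (-(η / 2)) * t ^ (-(η / 2))) := by
        gcongr

theorem upper (hb : Function.Injective b) (hadj : ∀ a, adj a (b a)) (aadj : A → A → Prop)
    (hE : ∀ n a a', aadj a a' → n a * n a' ≤ E n) (col : A → Bool)
    (hc1 : ∀ a a', adj a' (b a) → col a = col a') (hc2 : ∀ a a', aadj a a' → col a ≠ col a')
    (w : ℕ) (hw : ∀ Z O, Cov adj aadj b Z O → Fintype.card A ≤ Z.card + O.card + w)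
    {ε : ℝ} (hε : 0 < ε) : ∃ C : ℝ, 0 < C ∧ ∀ q : ℝ, 1 / 2 ≤ q → q < 1 →
      ∑' n : A → ℕ, gt adj E q n ≤ C * (1 - q) ^ (-((w : ℝ) + ε)) := by
  set m : ℕ := Fintype.card A with hm
  -- parameters
  obtain ⟨N, hN2, hN⟩ : ∃ N : ℕ, 2 ≤ N ∧ (m : ℝ) / N ≤ ε / 2 := by
    obtain ⟨N, hN⟩ := exists_nat_gt ((m : ℝ) / (ε / 2))
    refine ⟨N + 2, by omega, ?_⟩
    have h2 : (0 : ℝ) < ((N + 2 : ℕ) : ℝ) := by positivity
    rw [div_le_iff₀ h2]
    rw [div_lt_iff₀ (by positivity)] at hN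
    push_cast
    nlinarith
  obtain ⟨η, hη0, hη1, hη⟩ : ∃ η : ℝ, 0 < η ∧ η < 1 ∧ 3 * η * m ≤ ε / 2 := by
    refine ⟨min (1 / 2) (ε / (6 * ((m : ℝ) + 1))), by positivity, ?_, ?_⟩
    · exact (min_le_left _ _).trans_lt (by norm_num)
    · have h2 : min (1 / 2) (ε / (6 * ((m : ℝ) + 1))) ≤ ε / (6 * ((m : ℝ) + 1)) := min_le_right _ _
      calc 3 * min (1 / 2) (ε / (6 * ((m : ℝ) + 1))) * m ≤ 3 * (ε / (6 * ((m : ℝ) + 1))) * (m + 1) := by
            gcongr
            linarith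
        _ = ε / 2 := by
            field_simp
            norm_num
  have hN0 : (0 : ℝ) < N := by
    have : 0 < N := by omega
    exact_mod_cast this
  obtain ⟨C, hC0, hC⟩ := one_sum hη0 hη1.le
  set p : ℝ := (1 - η) / N with hp
  have hp0 : 0 < p := div_pos (by linarith) hN0
  -- the threshold
  obtain ⟨t₀, ht₀0, ht₀1, hta, htb⟩ : ∃ t₀ : ℝ, 0 < t₀ ∧ t₀ ≤ 1 ∧
      (∀ t, 0 < t → t ≤ t₀ → 4 * (m : ℝ) / η ≤ t ^ (-(η / 2))) ∧
      ∀ t, 0 < t → t ≤ t₀ → t ^ p < 1 / 2 := by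
    have hK : 0 < 4 * (m : ℝ) / η + 1 := by positivity
    refine ⟨min 1 (min ((4 * (m : ℝ) / η + 1) ^ (-(η / 2)⁻¹)) ((3 : ℝ) ^ (-p⁻¹))), ?_,
      min_le_left _ _, fun t ht h => ?_, fun t ht h => ?_⟩
    · have h2 := Real.rpow_pos_of_pos hK (-(η / 2)⁻¹)
      have h3 := Real.rpow_pos_of_pos (show (0 : ℝ) < 3 by norm_num) (-p⁻¹)
      positivity
    · have h2 := rpow_large (p := η / 2) (by positivity) hK ht
        (h.trans ((min_le_right _ _).trans (min_le_left _ _)))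
      linarith
    · have h2 := rpow_large (p := p) hp0 (K := 3) (by norm_num) ht
        (h.trans ((min_le_right _ _).trans (min_le_right _ _)))
      rw [Real.rpow_neg ht.le] at h2
      have h3 : 0 < t ^ p := Real.rpow_pos_of_pos ht _
      have h4 : t ^ p ≤ 3⁻¹ := by
        rw [← inv_inv (t ^ p)]
        exact inv_anti₀ (by norm_num) h2
      have h5 : (3 : ℝ)⁻¹ < 1 / 2 := by norm_num
      linarith
  refine ⟨1 + C ^ m + t₀⁻¹ ^ m, by positivity, fun q hq1 hq2 => ?_⟩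
  have h0 : 0 < q := by linarith
  have ht : 0 < 1 - q := by linarith
  have ht1 : 1 - q ≤ 1 := by linarith
  have hX : 1 ≤ (1 - q) ^ (-((w : ℝ) + ε)) :=
    Real.one_le_rpow_of_pos_of_le_one_of_nonpos ht ht1 (by
      have : (0 : ℝ) ≤ w := Nat.cast_nonneg w
      linarith)
  rcases le_total (1 - q) t₀ with hsmall | hlarge
  · -- the main case
    set lam : ℝ := (1 - q) ^ p with hlam
    have hl0 : 0 < lam := Real.rpow_pos_of_pos ht _
    have hl1 : lam < 1 / 2 := htb _ ht hsmall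
    have hlN : lam ^ N = (1 - q) ^ (1 - η) := by
      rw [hlam, ← Real.rpow_natCast, ← Real.rpow_mul ht.le, hp, div_mul_cancel₀ _ hN0.ne']
    have hbig : Real.exp (-(q / (1 - q) * lam ^ N)) ≤ (1 - q) ^ m := by
      rw [hlN]
      exact exp_small hη0 ht hq1 (hta _ ht hsmall)
    have hδ1 : 1 - q ≤ lam ^ N := by
      rw [hlN]
      calc 1 - q = (1 - q) ^ (1 : ℝ) := (Real.rpow_one _).symm
        _ ≤ _ := Real.rpow_le_rpow_of_exponent_ge ht ht1 (by linarith)
    have hδ2 : lam ^ N ≤ 1 := pow_le_one₀ hl0.le (by linarith)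
    obtain ⟨hs, hV⟩ := hC q (lam ^ N) h0 hq2 hδ1 hδ2
    have h2 := upper_sum adj E b hb hadj aadj hE col hc1 hc2 w hw h0 hq2 hl0 hl1 hbig hs hV
    refine h2.trans ?_
    rw [← hm]
    have h3 : lam ^ ((N - 1) * (m - w)) * (C * (1 - q) ^ (-(1 + 2 * η))) ^ m =
        C ^ m * (1 - q) ^ (p * (((N - 1) * (m - w) : ℕ) : ℝ) + -(1 + 2 * η) * m) := by
      rw [hlam, ← Real.rpow_natCast ((1 - q) ^ p), ← Real.rpow_mul ht.le, mul_pow,
        ← Real.rpow_natCast ((1 - q) ^ (-(1 + 2 * η))), ← Real.rpow_mul ht.le, Real.rpow_add ht]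
      ring
    have h4 : -((w : ℝ) + ε) ≤ p * (((N - 1) * (m - w) : ℕ) : ℝ) + -(1 + 2 * η) * m := by
      have h5 : (m : ℝ) - w ≤ ((m - w : ℕ) : ℝ) := by
        rcases le_total w m with h | h
        · rw [Nat.cast_sub h]
        · rw [Nat.sub_eq_zero_of_le h, Nat.cast_zero]
          have : (m : ℝ) ≤ w := by exact_mod_cast h
          linarith
      have h6 : ((m - w : ℕ) : ℝ) ≤ m := by
        exact_mod_cast Nat.sub_le m w
      have h7 : (((N - 1) * (m - w) : ℕ) : ℝ) = ((N : ℝ) - 1) * ((m - w : ℕ) : ℝ) := by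
        rw [Nat.cast_mul, Nat.cast_sub (by omega), Nat.cast_one]
      rw [h7]
      set d : ℝ := ((m - w : ℕ) : ℝ) with hd
      have hd0 : 0 ≤ d := Nat.cast_nonneg _
      have h8 : p * (((N : ℝ) - 1) * d) = (1 - η) * (1 - 1 / N) * d := by
        rw [hp]
        field_simp
      have h9 : 1 - η - 1 / N ≤ (1 - η) * (1 - 1 / (N : ℝ)) := by
        have : 0 < 1 / (N : ℝ) := by positivity
        nlinarith
      have h10 : (1 - η - 1 / N) * d ≤ (1 - η) * (1 - 1 / (N : ℝ)) * d :=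
        mul_le_mul_of_nonneg_right h9 hd0
      have h11 : 1 / (N : ℝ) * d ≤ m / N := by
        rw [div_mul_eq_mul_div, one_mul]
        gcongr
      have h12 : η * d ≤ η * m := mul_le_mul_of_nonneg_left h6 hη0.le
      rw [h8]
      nlinarith
    have h5 : (1 - q) ^ (p * (((N - 1) * (m - w) : ℕ) : ℝ) + -(1 + 2 * η) * m) ≤
        (1 - q) ^ (-((w : ℝ) + ε)) := Real.rpow_le_rpow_of_exponent_ge ht ht1 h4
    rw [h3]
    have h6 : C ^ m * (1 - q) ^ (p * (((N - 1) * (m - w) : ℕ) : ℝ) + -(1 + 2 * η) * m) ≤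
        C ^ m * (1 - q) ^ (-((w : ℝ) + ε)) := mul_le_mul_of_nonneg_left h5 (by positivity)
    have h7 : 0 ≤ t₀⁻¹ ^ m * (1 - q) ^ (-((w : ℝ) + ε)) := by positivity
    nlinarith
  · have h2 := gt_tsum_le adj E b hb hadj h0 hq2
    refine h2.trans ?_
    have h3 : (1 - q)⁻¹ ^ m ≤ t₀⁻¹ ^ m :=
      pow_le_pow_left₀ (by positivity) (inv_anti₀ ht₀0 hlarge) _
    have h4 : t₀⁻¹ ^ m * 1 ≤ t₀⁻¹ ^ m * (1 - q) ^ (-((w : ℝ) + ε)) :=
      mul_le_mul_of_nonneg_left hX (by positivity)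
    have h5 : 0 ≤ (1 + C ^ m) * (1 - q) ^ (-((w : ℝ) + ε)) := by positivity
    rw [← hm]
    nlinarith

end

end Pool.Agent.H25.GW
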