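import Pool.Agent.H93.GS.Comb
import Pool.Agent.H93.GS.Bip
import Pool.Agent.H25.GW.Upper

/-!
# GW CombW: flat sets, covers and matchings (MP_b63d87_nt, helper25)

`Deg1 Γ R`: no vertex of `R` has two neighbours in `R`. A cover `(Z, O)` gives the set
`(S \ b Z) ∪ Z ∪ F`, `F` = the complement of `Z ∪ O`, which contains a maximum independent set and
satisfies `Deg1`.
-/

set_option autoImplicit false

namespace Pool.Agent.H25.GW

open Finset H93GS

/-- no vertex of `R` has two neighbours in `R` -/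
def Deg1 {r : ℕ} (Γ : SimpleGraph (Fin r)) (R : Finset (Fin r)) : Prop :=
  ∀ v ∈ R, ∀ u ∈ R, ∀ u' ∈ R, Γ.Adj v u → Γ.Adj v u' → u = u'

section

variable {r : ℕ} (Γ : SimpleGraph (Fin r)) [DecidableRel Γ.Adj] (S : Finset (Fin r))

/-- the matching for a given maximum independent set of a bipartite graph -/
theorem bip_of_max (hΓ : Γ.Colorable 2) (hS' : ∀ i ∈ S, ∀ j ∈ S, ¬ Γ.Adj i j)
    (hmax' : ∀ T : Finset (Fin r), (∀ i ∈ T, ∀ j ∈ T, ¬ Γ.Adj i j) → T.card ≤ S.card) :
    ∃ b : AA S → BB S, Function.Injective b ∧ ∀ a, adjS Γ S a (b a) := by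
  classical
  obtain ⟨c⟩ := hΓ
  have hall : ∀ U : Finset {a : Fin r // a ∉ S},
      U.card ≤ (U.biUnion fun a => S.filter (Γ.Adj a.1)).card := by
    intro U
    have hsplit : U.card = ((U.map (Function.Embedding.subtype _)).filter fun a => c a = 0).card +
        ((U.map (Function.Embedding.subtype _)).filter fun a => ¬ c a = 0).card := by
      rw [card_filter_add_card_filter_not, card_map]
    have hmem : ∀ a ∈ U.map (Function.Embedding.subtype _), a ∉ S := by
      intro a ha
      obtain ⟨x, -, rfl⟩ := mem_map.1 ha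
      exact x.2
    have h0 := bip_class Γ hS' hmax'
      (V := (U.map (Function.Embedding.subtype _)).filter fun a => c a = 0)
      (fun a ha => hmem a (mem_filter.1 ha).1)
      (fun i hi j hj hij => c.valid hij ((mem_filter.1 hi).2.trans (mem_filter.1 hj).2.symm))
    have h1 := bip_class Γ hS' hmax'
      (V := (U.map (Function.Embedding.subtype _)).filter fun a => ¬ c a = 0)
      (fun a ha => hmem a (mem_filter.1 ha).1)
      (fun i hi j hj hij => c.valid hij (by
        have h2 := (mem_filter.1 hi).2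
        have h3 := (mem_filter.1 hj).2
        change c i = c j
        omega))
    have hdisj : Disjoint
        (S.filter fun x => ∃ a ∈ (U.map (Function.Embedding.subtype _)).filter
          (fun a => c a = 0), Γ.Adj a x)
        (S.filter fun x => ∃ a ∈ (U.map (Function.Embedding.subtype _)).filter
          (fun a => ¬ c a = 0), Γ.Adj a x) := by
      rw [disjoint_left]
      intro x hx hx'
      obtain ⟨a, ha, hax⟩ := (mem_filter.1 hx).2
      obtain ⟨a', ha', hax'⟩ := (mem_filter.1 hx').2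
      have h2 : c a = 0 := (mem_filter.1 ha).2
      have h3 : ¬ c a' = 0 := (mem_filter.1 ha').2
      have h6 : c a ≠ c x := c.valid hax
      have h7 : c a' ≠ c x := c.valid hax'
      omega
    rw [hsplit]
    refine (add_le_add h0 h1).trans ?_
    rw [← card_union_of_disjoint hdisj]
    refine card_le_card ?_
    intro x hx
    rw [mem_union] at hx
    rw [mem_biUnion]
    rcases hx with hx | hx
    · obtain ⟨hxS, a, ha, hax⟩ := mem_filter.1 hx
      obtain ⟨y, hy, rfl⟩ := mem_map.1 (mem_filter.1 ha).1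
      exact ⟨y, hy, mem_filter.2 ⟨hxS, hax⟩⟩
    · obtain ⟨hxS, a, ha, hax⟩ := mem_filter.1 hx
      obtain ⟨y, hy, rfl⟩ := mem_map.1 (mem_filter.1 ha).1
      exact ⟨y, hy, mem_filter.2 ⟨hxS, hax⟩⟩
  obtain ⟨f, hf, hf'⟩ := (Finset.all_card_le_biUnion_card_iff_exists_injective
    (fun a : {a : Fin r // a ∉ S} => S.filter (Γ.Adj a.1))).1 hall
  refine ⟨fun a => ⟨f a, (mem_filter.1 (hf' a)).1⟩, fun x y hxy => ?_, fun a => ?_⟩
  · exact hf (congrArg Subtype.val hxy)
  · exact (mem_filter.1 (hf' a)).2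

/-- the adjacency outside `S` -/
abbrev aad : AA S → AA S → Prop := fun a a' => Γ.Adj a.1 a'.1

theorem cov_good (b : AA S → BB S) (Z O : Finset (AA S))
    (h : Cov (adjS Γ S) (aad Γ S) b Z O) : Good (adjS Γ S) (aad Γ S) b Z := by
  obtain ⟨hd, h1, h2, h3⟩ := h
  rw [Finset.disjoint_left] at hd
  refine ⟨fun a ha a' ha' hadj => ?_, fun s hs a ha hadj => ?_, fun a ha a' ha' hadj => ?_⟩
  · have hne : a ≠ a' := fun e => ha (e ▸ ha')
    rcases h1 a a' hne hadj with h4 | h4
    · exact ha h4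
    · exact hd ha' h4
  · exact hd ha (h2 s hs a hadj)
  · rcases h3 a a' hadj with h4 | h4
    · exact hd ha h4
    · exact hd ha' h4

/-- covers and flat sets -/
theorem cov_card (hS : ∀ i ∈ S, ∀ j ∈ S, ¬ Γ.Adj i j) (b : AA S → BB S)
    (hb : Function.Injective b) (w : ℕ)
    (hw : ∀ S' R : Finset (Fin r), (∀ i ∈ S', ∀ j ∈ S', ¬ Γ.Adj i j) → S'.card = S.card →
      S' ⊆ R → Deg1 Γ R → R.card ≤ S.card + w)
    (Z O : Finset (AA S)) (h : Cov (adjS Γ S) (aad Γ S) b Z O) :
    Fintype.card (AA S) ≤ Z.card + O.card + w := by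
  classical
  have hg := cov_good Γ S b Z O h
  obtain ⟨hd, h1, h2, h3⟩ := h
  have hd' := Finset.disjoint_left.1 hd
  set S' : Finset (Fin r) := (S \ Z.image (fun a => (b a).1)) ∪ Z.image Subtype.val with hS'
  have hi : ∀ i ∈ S', ∀ j ∈ S', ¬ Γ.Adj i j := comb_indep Γ S hS b Z hg
  have hc : S'.card = S.card := comb_card S b hb Z
  set F : Finset (AA S) := univ \ (Z ∪ O) with hF
  have hFZ : ∀ f ∈ F, f ∉ Z := fun f hf hf' =>
    (mem_sdiff.1 hf).2 (mem_union_left _ hf')
  have hFO : ∀ f ∈ F, f ∉ O := fun f hf hf' =>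
    (mem_sdiff.1 hf).2 (mem_union_right _ hf')
  -- neighbours of `F` in `S'`
  have key : ∀ f ∈ F, ∀ u ∈ S', Γ.Adj f.1 u → u = (b f).1 := by
    intro f hf u hu hadj
    rw [hS', mem_union] at hu
    rcases hu with hu | hu
    · rw [mem_sdiff, mem_image] at hu
      by_cases hm : ∃ a, b a = (⟨u, hu.1⟩ : BB S)
      · obtain ⟨a, ha⟩ := hm
        have haZ : a ∉ Z := fun haZ => hu.2 ⟨a, haZ, by rw [ha]⟩
        by_cases hne : a = f
        · rw [← hne, ha]
        · rcases h1 a f hne (by rw [ha]; exact hadj) with h4 | h4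
          · exact absurd h4 haZ
          · exact absurd h4 (hFO f hf)
      · exact absurd (h2 ⟨u, hu.1⟩ (fun a ha => hm ⟨a, ha⟩) f hadj) (hFO f hf)
    · obtain ⟨z, hz, rfl⟩ := mem_image.1 hu
      rcases h3 f z hadj with h4 | h4
      · exact absurd h4 (hFO f hf)
      · exact absurd h4 (hd' hz)
  have keyF : ∀ f ∈ F, ∀ f' ∈ F, ¬ Γ.Adj f.1 f'.1 := by
    intro f hf f' hf' hadj
    rcases h3 f f' hadj with h4 | h4
    · exact hFO f hf h4
    · exact hFO f' hf' h4
  have hR := hw S' (S' ∪ F.image Subtype.val) hi hc subset_union_left ?_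
  · have hdisj : Disjoint S' (F.image Subtype.val) := by
      rw [Finset.disjoint_left]
      intro x hx hx'
      obtain ⟨f, hf, rfl⟩ := mem_image.1 hx'
      rw [hS', mem_union] at hx
      rcases hx with hx | hx
      · exact f.2 (mem_sdiff.1 hx).1
      · obtain ⟨z, hz, he⟩ := mem_image.1 hx
        exact hFZ f hf (Subtype.ext he ▸ hz)
    rw [card_union_of_disjoint hdisj, hc, card_image_of_injective F Subtype.val_injective] at hR
    have h5 : F.card + (Z ∪ O).card = Fintype.card (AA S) := by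
      rw [hF, card_sdiff_add_card_eq_card (subset_univ _), card_univ]
    rw [card_union_of_disjoint hd] at h5
    omega
  · -- the degree condition
    intro v hv u hu u' hu' hvu hvu'
    rcases mem_union.1 hv with hv | hv
    · have h6 : ∀ x ∈ S' ∪ F.image Subtype.val, Γ.Adj v x →
          ∃ f ∈ F, f.1 = x ∧ v = (b f).1 := by
        intro x hx hadj
        rcases mem_union.1 hx with hx | hx
        · exact absurd hadj (hi v hv x hx)
        · obtain ⟨f, hf, rfl⟩ := mem_image.1 hx
          exact ⟨f, hf, rfl, key f hf v hv hadj.symm⟩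
      obtain ⟨f, hf, rfl, h7⟩ := h6 u hu hvu
      obtain ⟨f', hf', rfl, h8⟩ := h6 u' hu' hvu'
      have h9 : b f = b f' := Subtype.ext (h7.symm.trans h8)
      rw [hb h9]
    · obtain ⟨f, hf, rfl⟩ := mem_image.1 hv
      have h6 : ∀ x ∈ S' ∪ F.image Subtype.val, Γ.Adj f.1 x → x = (b f).1 := by
        intro x hx hadj
        rcases mem_union.1 hx with hx | hx
        · exact key f hf x hx hadj
        · obtain ⟨f', hf', rfl⟩ := mem_image.1 hx
          exact absurd hadj (keyF f hf f' hf')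
      rw [h6 u hu hvu, h6 u' hu' hvu']

/-- the part of a flat set outside `S` -/
def outside (R : Finset (Fin r)) : Finset (AA S) := univ.filter fun a => a.1 ∈ R

theorem card_outside (R : Finset (Fin r)) (h : S ⊆ R) : R.card = S.card + (outside S R).card := by
  classical
  have h1 : (outside S R).image Subtype.val = R \ S := by
    ext x
    simp only [outside, mem_image, mem_filter, mem_univ, true_and, mem_sdiff]
    constructor
    · rintro ⟨a, ha, rfl⟩
      exact ⟨ha, a.2⟩
    · rintro ⟨hx, hx'⟩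
      exact ⟨⟨x, hx'⟩, hx, rfl⟩
  have h2 := card_image_of_injective (outside S R) Subtype.val_injective
  rw [h1] at h2
  have h3 := card_sdiff_add_card_eq_card h
  omega

theorem outside_inj {R₁ R₂ : Finset (Fin r)} (h₁ : S ⊆ R₁) (h₂ : S ⊆ R₂)
    (h : outside S R₁ = outside S R₂) : R₁ = R₂ := by
  ext x
  by_cases hx : x ∈ S
  · exact ⟨fun _ => h₂ hx, fun _ => h₁ hx⟩
  · have h3 : (⟨x, hx⟩ : AA S) ∈ outside S R₁ ↔ (⟨x, hx⟩ : AA S) ∈ outside S R₂ := by rw [h]
    simpa [outside] using h3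

theorem outside_only (b : AA S → BB S) (hadj : ∀ a, adjS Γ S a (b a)) {R : Finset (Fin r)}
    (h : S ⊆ R) (hR : Deg1 Γ R) : ∀ a ∈ outside S R, ∀ s, adjS Γ S a s → s = b a := by
  intro a ha s hs
  have ha' : a.1 ∈ R := (mem_filter.1 ha).2
  exact Subtype.ext (hR a.1 ha' s.1 (h s.2) (b a).1 (h (b a).2) hs (hadj a))

theorem outside_indep (b : AA S → BB S) (hadj : ∀ a, adjS Γ S a (b a)) {R : Finset (Fin r)}
    (h : S ⊆ R) (hR : Deg1 Γ R) : ∀ a ∈ outside S R, ∀ a' ∈ outside S R, ¬ aad Γ S a a' := by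
  intro a ha a' ha' hs
  have h1 : a.1 ∈ R := (mem_filter.1 ha).2
  have h2 : a'.1 ∈ R := (mem_filter.1 ha').2
  have h3 := hR a.1 h1 a'.1 h2 (b a).1 (h (b a).2) hs (hadj a)
  exact a'.2 (h3 ▸ (b a).2)

theorem EA_le (n : AA S → ℕ) (D : ℕ) (h : ∀ a a', aad Γ S a a' → n a * n a' ≤ D) :
    EA Γ S n ≤ Fintype.card (AA S) ^ 2 * D := by
  unfold EA
  calc (∑ a : AA S, ∑ a' : AA S, if a.1 < a'.1 ∧ Γ.Adj a.1 a'.1 then n a * n a' else 0)
      ≤ ∑ _a : AA S, ∑ _a' : AA S, D := by
        refine Finset.sum_le_sum fun a _ => Finset.sum_le_sum fun a' _ => ?_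
        split_ifs with h1
        · exact h a a' h1.2
        · exact Nat.zero_le _
    _ = _ := by
        rw [sum_const, sum_const, card_univ, smul_eq_mul, smul_eq_mul]
        ring

/-- the colours -/
theorem col_exists (hΓ : Γ.Colorable 2) (b : AA S → BB S) (hadj : ∀ a, adjS Γ S a (b a)) :
    ∃ col : AA S → Bool, (∀ a a', adjS Γ S a' (b a) → col a = col a') ∧
      ∀ a a', aad Γ S a a' → col a ≠ col a' := by
  obtain ⟨c⟩ := hΓ
  refine ⟨fun a => decide (c a.1 = 0), fun a a' h => ?_, fun a a' h => ?_⟩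
  · have h1 : c a.1 ≠ c (b a).1 := c.valid (hadj a)
    have h2 : c a'.1 ≠ c (b a).1 := c.valid h
    have h3 : c a.1 = c a'.1 := by omega
    simp only [h3]
  · have h1 : c a.1 ≠ c a'.1 := c.valid h
    intro h2
    rw [decide_eq_decide] at h2
    omega

end

end Pool.Agent.H25.GW
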