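import Pool.Agent.H93.GS.Per

/-!
# GW Cusp0: the behaviour at the cusp 0 (MP_b63d87_nt, helper25)

`cusp0`: `|F(i/y)| y^(-k) exp(l y)` tends to a positive constant for `y → ∞`.
`expo`: two growth conditions determine `l` and `k`.
-/

set_option autoImplicit false

namespace Pool.Agent.H25.GW

open UpperHalfPlane Filter H93GS Topology
open scoped MatrixGroups Manifold

theorem cusp0 {F : ℍ → ℂ} (hF : MDifferentiable 𝓘(ℂ) 𝓘(ℂ) F) {k : ℝ}
    {Δ : Subgroup SL(2, ℤ)} (hΔ : Δ.FiniteIndex)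
    (hmod : ∀ γ ∈ Δ, ∀ τ : ℍ, ‖F (γ • τ)‖ = ‖denom γ τ‖ ^ k * ‖F τ‖)
    (hcusp : ∀ δ : SL(2, ℤ), ∃ C M : ℝ, ∀ τ : ℍ, 1 ≤ τ.im →
      ‖F (δ • τ)‖ ≤ C * ‖denom δ τ‖ ^ k * Real.exp (M * τ.im))
    (hF0 : ∃ τ, F τ ≠ 0) (φ : ℝ → ℝ) (hφ : ∀ τ : ℍ, τ.re = 0 → ‖F τ‖ = φ τ.im) :
    ∃ l κ : ℝ, 0 < κ ∧
      Tendsto (fun y : ℝ => φ y⁻¹ * y ^ (-k) * Real.exp (l * y)) atTop (𝓝 κ) := by
  -- the function at the cusp `0`
  set g : ℍ → ℂ := fun τ => F (ModularGroup.S • τ) * Complex.exp (-(k : ℂ) * Complex.log (τ : ℂ))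
    with hg
  have hnorm : ∀ τ : ℍ, ‖g τ‖ = ‖F (ModularGroup.S • τ)‖ * ‖(τ : ℂ)‖ ^ (-k) := by
    intro τ
    have hτ : (0 : ℝ) < ‖(τ : ℂ)‖ := norm_pos_iff.2 (UpperHalfPlane.ne_zero τ)
    simp only [hg, norm_mul]
    congr 1
    rw [Complex.norm_exp, Real.rpow_def_of_pos hτ]
    congr 1
    have e : (-(k : ℂ) * Complex.log (τ : ℂ)).re = -k * (Complex.log (τ : ℂ)).re := by
      rw [← Complex.ofReal_neg, Complex.re_ofReal_mul]
    rw [e, Complex.log_re]
    ring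
  have hgd : MDifferentiable 𝓘(ℂ) 𝓘(ℂ) g := by
    have h1 : MDifferentiable 𝓘(ℂ) 𝓘(ℂ) (fun τ : ℍ => F (ModularGroup.S • τ)) := by
      have h2 := UpperHalfPlane.mdifferentiable_smul (g := (ModularGroup.S : GL (Fin 2) ℝ))
        (by simp)
      exact hF.comp h2
    rw [UpperHalfPlane.mdifferentiable_iff] at h1 ⊢
    have h2 : DifferentiableOn ℂ (fun z : ℂ => Complex.exp (-(k : ℂ) * Complex.log z))
        {z | 0 < z.im} := by
      intro z hz
      have hz' : z ∈ Complex.slitPlane := Or.inr (ne_of_gt hz)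
      exact ((Complex.differentiableAt_log hz').const_mul _).cexp.differentiableWithinAt
    refine (h1.mul h2).congr ?_
    intro z hz
    simp only [hg, Function.comp, Pi.mul_apply]
    rw [ofComplex_apply_of_im_pos hz]
  obtain ⟨N, hN, hNΔ⟩ := exists_period Δ hΔ ModularGroup.S
  have hper : ∀ τ : ℍ, ‖g ((N : ℝ) +ᵥ τ)‖ = ‖g τ‖ := by
    intro τ
    have := norm_period hmod hNΔ τ
    rw [ModularGroup.denom_S, ModularGroup.denom_S] at this
    rw [hnorm, hnorm]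
    exact this
  obtain ⟨C, M, hC⟩ := hcusp ModularGroup.S
  have hgr : ∀ τ : ℍ, 1 ≤ τ.im → ‖g τ‖ ≤ C * Real.exp (M * τ.im) := by
    intro τ hτ
    have h1 := hC τ hτ
    rw [ModularGroup.denom_S] at h1
    have hτ0 : (0 : ℝ) < ‖(τ : ℂ)‖ := norm_pos_iff.2 (UpperHalfPlane.ne_zero τ)
    have e : ‖(τ : ℂ)‖ ^ k * ‖(τ : ℂ)‖ ^ (-k) = 1 := by
      rw [← Real.rpow_add hτ0]
      simp
    rw [hnorm]
    calc ‖F (ModularGroup.S • τ)‖ * ‖(τ : ℂ)‖ ^ (-k)
        ≤ C * ‖(τ : ℂ)‖ ^ k * Real.exp (M * τ.im) * ‖(τ : ℂ)‖ ^ (-k) :=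
          mul_le_mul_of_nonneg_right h1 (Real.rpow_nonneg hτ0.le _)
      _ = C * Real.exp (M * τ.im) * (‖(τ : ℂ)‖ ^ k * ‖(τ : ℂ)‖ ^ (-k)) := by ring
      _ = C * Real.exp (M * τ.im) := by rw [e, mul_one]
  -- the points on the imaginary axis
  have hax : ∀ y : ℝ, ∀ hy : 0 < y,
      ‖g ⟨Complex.I * y, by simpa using hy⟩‖ = φ y⁻¹ * y ^ (-k) := by
    intro y hy
    have hS : ((ModularGroup.S • (⟨Complex.I * y, by simpa using hy⟩ : ℍ) : ℍ) : ℂ) =
        Complex.I * (y⁻¹ : ℝ) := by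
      rw [UpperHalfPlane.modular_S_smul]
      have hy0 : (y : ℂ) ≠ 0 := by exact_mod_cast hy.ne'
      change (-(Complex.I * (y : ℂ)))⁻¹ = Complex.I * (y⁻¹ : ℝ)
      rw [Complex.ofReal_inv]
      apply inv_eq_of_mul_eq_one_right
      calc -(Complex.I * (y : ℂ)) * (Complex.I * (y : ℂ)⁻¹)
          = -(Complex.I * Complex.I) * ((y : ℂ) * (y : ℂ)⁻¹) := by ring
        _ = 1 := by rw [Complex.I_mul_I, mul_inv_cancel₀ hy0, neg_neg, one_mul]
    have hre : (ModularGroup.S • (⟨Complex.I * y, by simpa using hy⟩ : ℍ) : ℍ).re = 0 := by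
      rw [← UpperHalfPlane.coe_re, hS]
      simp
    have him : (ModularGroup.S • (⟨Complex.I * y, by simpa using hy⟩ : ℍ) : ℍ).im = y⁻¹ := by
      rw [← UpperHalfPlane.coe_im, hS]
      simp
    have h2 : ‖((⟨Complex.I * y, by simpa using hy⟩ : ℍ) : ℂ)‖ = y := by
      change ‖Complex.I * (y : ℂ)‖ = y
      rw [norm_mul, Complex.norm_I, one_mul, Complex.norm_real, Real.norm_of_nonneg hy.le]
    rw [hnorm, h2, hφ _ hre, him]
  have hne : ∃ τ, g τ ≠ 0 := by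
    obtain ⟨τ, hτ⟩ := hF0
    refine ⟨ModularGroup.S⁻¹ • τ, ?_⟩
    simp only [hg]
    rw [smul_inv_smul]
    exact mul_ne_zero hτ (Complex.exp_ne_zero _)
  obtain ⟨l, P, hP, hP0, hgP⟩ := cusp_lemma hgd hne (N := (N : ℝ)) (by exact_mod_cast hN) hper hgr
  have hPc : ContinuousAt P 0 :=
    (hP.differentiableAt (Metric.ball_mem_nhds 0 one_pos)).continuousAt
  have hN' : (0 : ℝ) < N := by exact_mod_cast hN
  have hq : Tendsto (fun y : ℝ => Function.Periodic.qParam N (Complex.I * y)) atTop (nhds 0) := by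
    rw [tendsto_zero_iff_norm_tendsto_zero]
    have h1 : Tendsto (fun y : ℝ => Real.exp (-((2 * Real.pi / N) * y))) atTop (nhds 0) := by
      refine Real.tendsto_exp_neg_atTop_nhds_zero.comp ?_
      exact tendsto_id.const_mul_atTop (by positivity)
    refine h1.congr fun y => ?_
    rw [Function.Periodic.norm_qParam]
    congr 1
    simp
    ring
  have hPq : Tendsto (fun y : ℝ => ‖P (Function.Periodic.qParam N (Complex.I * y))‖) atTop
      (nhds ‖P 0‖) := (hPc.tendsto.comp hq).norm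
  refine ⟨l, ‖P 0‖, norm_pos_iff.2 hP0, hPq.congr' ?_⟩
  filter_upwards [eventually_gt_atTop 0] with y h3
  have h5 := hax y h3
  have h6 := hgP ⟨Complex.I * y, by simpa using h3⟩
  have h7 : (⟨Complex.I * y, by simpa using h3⟩ : ℍ).im = y := by
    rw [← UpperHalfPlane.coe_im]
    change (Complex.I * (y : ℂ)).im = y
    simp
  rw [h7] at h6
  rw [← h5, h6]
  have h8 : Real.exp (-l * y) * Real.exp (l * y) = 1 := by
    rw [← Real.exp_add]
    simp
  change ‖P (Function.Periodic.qParam N (Complex.I * y))‖ =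
    Real.exp (-l * y) * ‖P (Function.Periodic.qParam N (Complex.I * y))‖ * Real.exp (l * y)
  linear_combination (-‖P (Function.Periodic.qParam N (Complex.I * y))‖) * h8

/-- growth at least like a constant -/
theorem exp_ge {l p c : ℝ} (hc : 0 < c) (h : ∀ᶠ y : ℝ in atTop, c ≤ Real.exp (l * y) * y ^ p) :
    0 ≤ l ∧ (l = 0 → 0 ≤ p) := by
  have key0 : ¬ Tendsto (fun y : ℝ => Real.exp (l * y) * y ^ p) atTop (nhds 0) := by
    intro ht
    have h1 := ht.eventually (gt_mem_nhds hc)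
    obtain ⟨y, hy, hy'⟩ := (h.and h1).exists
    exact absurd hy' (not_lt.2 hy)
  constructor
  · by_contra hl
    push Not at hl
    apply key0
    have := tendsto_rpow_mul_exp_neg_mul_atTop_nhds_zero p (-l) (by linarith)
    refine this.congr fun y => ?_
    rw [neg_neg, mul_comm]
  · rintro rfl
    by_contra hp
    push Not at hp
    apply key0
    have := tendsto_rpow_neg_atTop (y := -p) (by linarith)
    refine this.congr fun y => ?_
    simp

/-- growth at most like a constant -/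
theorem exp_le {l p c : ℝ} (h : ∀ᶠ y : ℝ in atTop, Real.exp (l * y) * y ^ p ≤ c) :
    l ≤ 0 ∧ (l = 0 → p ≤ 0) := by
  have hc : 0 < c := by
    obtain ⟨y, hy, hy0⟩ := (h.and (eventually_gt_atTop 0)).exists
    exact (mul_pos (Real.exp_pos _) (Real.rpow_pos_of_pos hy0 _)).trans_le hy
  have h2 := exp_ge (l := -l) (p := -p) (c := c⁻¹) (inv_pos.2 hc) (by
    filter_upwards [h, eventually_gt_atTop 0] with y hy hy0
    have hpos : 0 < Real.exp (l * y) * y ^ p :=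
      mul_pos (Real.exp_pos _) (Real.rpow_pos_of_pos hy0 _)
    have e : Real.exp (-l * y) * y ^ (-p) = (Real.exp (l * y) * y ^ p)⁻¹ := by
      rw [mul_inv, Real.rpow_neg hy0.le, ← Real.exp_neg]
      ring_nf
    rw [e]
    exact inv_anti₀ hpos hy)
  refine ⟨by linarith [h2.1], fun hl => ?_⟩
  have := h2.2 (by rw [hl, neg_zero])
  linarith

theorem expo {ψ : ℝ → ℝ} {l κ k w : ℝ} (hκ : 0 < κ)
    (hlim : Tendsto (fun y : ℝ => ψ y * y ^ (-k) * Real.exp (l * y)) atTop (𝓝 κ))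
    (hlo : ∃ c : ℝ, 0 < c ∧ ∀ᶠ y in atTop, c * y ^ w ≤ ψ y)
    (hup : ∀ ε : ℝ, 0 < ε → ∃ C : ℝ, 0 < C ∧ ∀ᶠ y in atTop, ψ y ≤ C * y ^ (w + ε)) :
    l = 0 ∧ k = w := by
  have h1 := hlim.eventually (gt_mem_nhds (show κ < 2 * κ by linarith))
  have h2 := hlim.eventually (lt_mem_nhds (show κ / 2 < κ by linarith))
  obtain ⟨c, hc, hlo⟩ := hlo
  have h3 : l ≤ 0 ∧ (l = 0 → w - k ≤ 0) := by
    refine exp_le (c := 2 * κ / c) ?_
    filter_upwards [h1, hlo, eventually_gt_atTop 0] with y h3 h4 h5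
    rw [le_div_iff₀ hc]
    have h6 : y ^ (w - k) = y ^ w * y ^ (-k) := by rw [← Real.rpow_add h5, sub_eq_add_neg]
    have h7 : 0 < y ^ (-k) * Real.exp (l * y) :=
      mul_pos (Real.rpow_pos_of_pos h5 _) (Real.exp_pos _)
    have h8 := mul_le_mul_of_nonneg_right h4 h7.le
    rw [h6]
    calc Real.exp (l * y) * (y ^ w * y ^ (-k)) * c = c * y ^ w * (y ^ (-k) * Real.exp (l * y)) := by
          ring
      _ ≤ ψ y * (y ^ (-k) * Real.exp (l * y)) := h8
      _ = ψ y * y ^ (-k) * Real.exp (l * y) := by ring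
      _ ≤ 2 * κ := h3.le
  have h4 : ∀ ε : ℝ, 0 < ε → 0 ≤ l ∧ (l = 0 → 0 ≤ w + ε - k) := by
    intro ε hε
    obtain ⟨C, hC, hup⟩ := hup ε hε
    refine exp_ge (c := κ / 2 / C) (by positivity) ?_
    filter_upwards [h2, hup, eventually_gt_atTop 0] with y h3 h4 h5
    rw [div_le_iff₀ hC]
    have h6 : y ^ (w + ε - k) = y ^ (w + ε) * y ^ (-k) := by
      rw [← Real.rpow_add h5, sub_eq_add_neg]
    have h7 : 0 < y ^ (-k) * Real.exp (l * y) :=
      mul_pos (Real.rpow_pos_of_pos h5 _) (Real.exp_pos _)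
    have h8 := mul_le_mul_of_nonneg_right h4 h7.le
    rw [h6]
    calc κ / 2 ≤ ψ y * y ^ (-k) * Real.exp (l * y) := h3.le
      _ = ψ y * (y ^ (-k) * Real.exp (l * y)) := by ring
      _ ≤ C * y ^ (w + ε) * (y ^ (-k) * Real.exp (l * y)) := h8
      _ = _ := by ring
  have hl : l = 0 := le_antisymm h3.1 (h4 1 one_pos).1
  refine ⟨hl, le_antisymm ?_ ?_⟩
  · refine le_of_forall_pos_le_add fun ε hε => ?_
    have := (h4 ε hε).2 hl
    linarith
  · have := h3.2 hl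
    linarith

end Pool.Agent.H25.GW
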