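import Pool.Agent.H25.GW.Main

/-!
# GW Final: the two statements (MP_b63d87_nt, helper25)
-/

set_option autoImplicit false

namespace Pool.Agent.H25.GW

open UpperHalfPlane H93GS

/-- `S` is a maximum independent set of vertices. -/
def MaxIndep {r : ℕ} (Γ : SimpleGraph (Fin r)) (S : Finset (Fin r)) : Prop :=
  (∀ i ∈ S, ∀ j ∈ S, ¬ Γ.Adj i j) ∧
    ∀ T : Finset (Fin r), (∀ i ∈ T, ∀ j ∈ T, ¬ Γ.Adj i j) → T.card ≤ S.card

/-- `R` is flat: it contains a maximum independent set of the graph, and no vertex of `R` has two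
neighbours in `R`. -/
def Flat {r : ℕ} (Γ : SimpleGraph (Fin r)) (R : Finset (Fin r)) : Prop :=
  (∃ S ⊆ R, MaxIndep Γ S) ∧
    ∀ v ∈ R, ∀ u ∈ R, ∀ u' ∈ R, Γ.Adj v u → Γ.Adj v u' → u = u'

theorem card_eq {r : ℕ} {Γ : SimpleGraph (Fin r)} {S S' : Finset (Fin r)} (h : MaxIndep Γ S)
    (h' : MaxIndep Γ S') : S'.card = S.card := le_antisymm (h.2 S' h'.1) (h'.2 S h.1)

theorem greatest {r : ℕ} {Γ : SimpleGraph (Fin r)} {S R : Finset (Fin r)} (hS : MaxIndep Γ S)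
    (hR : Flat Γ R) (hmax : ∀ R', Flat Γ R' → R'.card ≤ R.card) :
    IsGreatest {m | ∃ S' R' : Finset (Fin r), (∀ i ∈ S', ∀ j ∈ S', ¬ Γ.Adj i j) ∧
      S'.card = S.card ∧ S' ⊆ R' ∧ Deg1 Γ R' ∧ R'.card = S.card + m} (R.card - S.card) := by
  constructor
  · obtain ⟨⟨S', h1, h2⟩, h3⟩ := hR
    refine ⟨S', R, h2.1, card_eq hS h2, h1, h3, ?_⟩
    have := Finset.card_le_card h1
    rw [card_eq hS h2] at this
    omega
  · rintro m ⟨S', R', h1, h2, h3, h4, h5⟩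
    have := hmax R' ⟨⟨S', h3, h1, fun T hT => by rw [h2]; exact hS.2 T hT⟩, h4⟩
    omega

theorem indep_greatest {r : ℕ} {Γ : SimpleGraph (Fin r)} {S : Finset (Fin r)}
    (hS : MaxIndep Γ S) : IsGreatest
      {m | ∃ S : Finset (Fin r), (∀ i ∈ S, ∀ j ∈ S, ¬ Γ.Adj i j) ∧ S.card = m} S.card := by
  refine ⟨⟨S, hS.1, rfl⟩, ?_⟩
  rintro m ⟨T, hT, rfl⟩
  exact hS.2 T hT

theorem weight {r : ℕ} (Γ : SimpleGraph (Fin r)) [DecidableRel Γ.Adj] (hΓ : Γ.Colorable 2)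
    (S R : Finset (Fin r)) (hS : MaxIndep Γ S) (hR : Flat Γ R)
    (hmax : ∀ R', Flat Γ R' → R'.card ≤ R.card) (a k : ℝ)
    (hf : IsModularForm k fun τ : ℍ => Complex.exp (2 * Real.pi * Complex.I * a * (τ : ℂ)) *
      graphSeries Γ (Complex.exp (2 * Real.pi * Complex.I * (τ : ℂ)))) :
    k = R.card - 3 / 2 * S.card := by
  have h1 := (main_bip Γ hΓ S.card (R.card - S.card) (indep_greatest hS) (greatest hS hR hmax)
    a k hf).1
  have h2 : S.card ≤ R.card := by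
    obtain ⟨⟨S', h3, h4⟩, -⟩ := hR
    rw [← card_eq hS h4]
    exact Finset.card_le_card h3
  rw [h1, Nat.cast_sub h2]
  ring

theorem two_flat {r : ℕ} (Γ : SimpleGraph (Fin r)) [DecidableRel Γ.Adj] (hΓ : Γ.Colorable 2)
    (S R₁ R₂ : Finset (Fin r)) (hS : MaxIndep Γ S) (h₁ : S ⊆ R₁) (h₂ : S ⊆ R₂)
    (hR₁ : Flat Γ R₁) (hR₂ : Flat Γ R₂) (hne : R₁ ≠ R₂) (hc : R₁.card = R₂.card)
    (hmax : ∀ R', Flat Γ R' → R'.card ≤ R₁.card) (a k : ℝ) :
    ¬ IsModularForm k fun τ : ℍ => Complex.exp (2 * Real.pi * Complex.I * a * (τ : ℂ)) *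
      graphSeries Γ (Complex.exp (2 * Real.pi * Complex.I * (τ : ℂ))) := by
  intro hf
  have h3 := Finset.card_le_card h₁
  have h4 := (main_bip Γ hΓ S.card (R₁.card - S.card) (indep_greatest hS)
    (greatest hS hR₁ hmax) a k hf).2 S R₁ R₂ hS.1 rfl h₁ h₂ hR₁.2 hR₂.2 (by omega) (by omega)
  exact hne h4

end Pool.Agent.H25.GW
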