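import Pool.Agent.H93.GS.RealSer

/-!
# GW Lower: lower bounds for the reduced series (MP_b63d87_nt, helper25)

If every `a ∈ F` has `b a` as its only neighbour and `F` is independent then the reduced series is
at least `(1 - q) ^ (-|F|)`; if there are two such sets `F₁ ≠ F₂` with `w` elements then it is at
least `c * J * (2 ^ J) ^ w` as long as `2 ^ J * (1 - q) ≤ 1 / 2`.
-/

set_option autoImplicit false

namespace Pool.Agent.H25.GW

open Finset H93GS

section

variable {A B : Type} [Fintype A] [Fintype B]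
  (adj : A → B → Prop) [∀ a s, Decidable (adj a s)] (E : (A → ℕ) → ℕ) (b : A → B)

omit [Fintype B] in
theorem mm_supp (hb : Function.Injective b) (hadj : ∀ a, adj a (b a)) (F : Finset A)
    (hF : ∀ a ∈ F, ∀ s, adj a s → s = b a) (n : A → ℕ) (hn : ∀ a, a ∉ F → n a = 0) :
    (∀ a, mm adj n (b a) = n a) ∧ ∀ s, (∀ a, b a ≠ s) → mm adj n s = 0 := by
  classical
  constructor
  · intro a
    unfold mm
    rw [Finset.sum_eq_single a]
    · rw [if_pos (hadj a)]
    · intro a' _ hne
      by_cases h : a' ∈ F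
      · rw [if_neg]
        intro h2
        exact hne (hb (hF a' h _ h2)).symm
      · rw [hn a' h, ite_self]
    · intro h
      exact absurd (mem_univ a) h
  · intro s hs
    unfold mm
    refine Finset.sum_eq_zero fun a _ => ?_
    by_cases h : a ∈ F
    · rw [if_neg]
      intro h2
      exact hs a (hF a h _ h2).symm
    · rw [hn a h, ite_self]

theorem gt_supp (hb : Function.Injective b) (hadj : ∀ a, adj a (b a)) (F : Finset A)
    (hF : ∀ a ∈ F, ∀ s, adj a s → s = b a) (n : A → ℕ) (hn : ∀ a, a ∉ F → n a = 0)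
    {q : ℝ} (h0 : 0 < q) (h1 : q < 1) : gt adj E q n = q ^ (E n + ∑ a, n a) := by
  obtain ⟨h2, h3⟩ := mm_supp adj b hb hadj F hF n hn
  have h4 : ∏ s, qp q (mm adj n s) = ∏ a, qp q (n a) := by
    rw [← prod_extend b hb fun a => qp q (n a)]
    refine Finset.prod_congr rfl fun s _ => ?_
    by_cases hs : ∃ a, b a = s
    · obtain ⟨a, rfl⟩ := hs
      rw [hb.extend_apply, h2]
    · rw [Function.extend_apply' _ _ _ hs, h3 s (by simpa using hs)]
      simp [qp]
  unfold gt
  have h5 : 0 < ∏ a, qp q (n a) := Finset.prod_pos fun a _ => qpr_pos h0 h1 _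
  rw [h4, mul_div_cancel_right₀ _ h5.ne']

theorem lower_one (hb : Function.Injective b) (hadj : ∀ a, adj a (b a)) (aadj : A → A → Prop)
    (hE : ∀ n D, (∀ a a', aadj a a' → n a * n a' ≤ D) → E n ≤ Fintype.card A ^ 2 * D)
    (F : Finset A) (hF : ∀ a ∈ F, ∀ s, adj a s → s = b a) (hFi : ∀ a ∈ F, ∀ a' ∈ F, ¬ aadj a a')
    {q : ℝ} (h0 : 0 < q) (h1 : q < 1) : (1 - q)⁻¹ ^ F.card ≤ ∑' n : A → ℕ, gt adj E q n := by
  classical
  let f : A → ℕ → ℝ := fun a k => if a ∈ F then q ^ k else if k = 0 then 1 else 0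
  have hf0 : ∀ a k, 0 ≤ f a k := fun a k => by
    simp only [f]
    split_ifs <;> positivity
  have hf : ∀ a, HasSum (f a) (if a ∈ F then (1 - q)⁻¹ else 1) := by
    intro a
    by_cases h : a ∈ F
    · simp only [f, if_pos h]
      exact hasSum_geometric_of_lt_one h0.le h1
    · simp only [f, if_neg h]
      exact hasSum_ite_eq 0 (1 : ℝ)
  obtain ⟨h2, h3⟩ := pi_real (ι := A) (f := f) hf0 fun a => (hf a).summable
  have h4 : ∏ a, ∑' k, f a k = (1 - q)⁻¹ ^ F.card := by
    rw [Finset.prod_congr rfl fun a _ => (hf a).tsum_eq, Finset.prod_ite_mem, univ_inter,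
      Finset.prod_const]
  rw [← h4, ← h3]
  refine h2.tsum_le_tsum (fun n => ?_) (gt_real_summable adj E b hb hadj h0 h1)
  by_cases hn : ∀ a, a ∉ F → n a = 0
  · rw [gt_supp adj E b hb hadj F hF n hn h0 h1]
    have h5 : E n = 0 := by
      have h6 := hE n 0 fun a a' h => ?_
      · omega
      · by_cases h7 : a ∈ F
        · by_cases h8 : a' ∈ F
          · exact absurd h (hFi a h7 a' h8)
          · rw [hn a' h8, mul_zero]
        · rw [hn a h7, zero_mul]
    rw [h5, zero_add, ← Finset.prod_pow_eq_pow_sum]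
    refine (Finset.prod_congr rfl fun a _ => ?_).le
    by_cases h7 : a ∈ F
    · simp only [f, if_pos h7]
    · simp only [f, if_neg h7, hn a h7, if_true, pow_zero]
  · push Not at hn
    obtain ⟨a, ha, hna⟩ := hn
    have h5 : ∏ a, f a (n a) = 0 := by
      refine Finset.prod_eq_zero (mem_univ a) ?_
      simp only [f, if_neg ha, if_neg hna]
    rw [h5]
    exact (gt_pos adj E h0 h1 n).le

/-- the range of the coordinate `a` in the box number `j` -/
def rng (F₁ F₂ : Finset A) [DecidableEq A] (J j : ℕ) (a : A) : Finset ℕ :=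
  if a ∈ F₁ then (if a ∈ F₂ then range (2 ^ J) else Ico (2 ^ j) (2 ^ (j + 1)))
  else if a ∈ F₂ then range (2 ^ (J - j)) else {0}

theorem card_rng (F₁ F₂ : Finset A) [DecidableEq A] (J j : ℕ) (a : A) :
    (rng F₁ F₂ J j a).card = 2 ^ ((if a ∈ F₁ ∩ F₂ then J else 0) + (if a ∈ F₁ \ F₂ then j else 0) +
      if a ∈ F₂ \ F₁ then J - j else 0) := by
  unfold rng
  by_cases h1 : a ∈ F₁ <;> by_cases h2 : a ∈ F₂ <;> simp [h1, h2, pow_succ]
  omega

theorem card_box (F₁ F₂ : Finset A) [DecidableEq A] (hc : F₁.card = F₂.card) {J j : ℕ}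
    (hj : j < J) : (Fintype.piFinset (rng F₁ F₂ J j)).card = (2 ^ J) ^ F₁.card := by
  rw [Fintype.card_piFinset, Finset.prod_congr rfl fun a _ => card_rng F₁ F₂ J j a,
    Finset.prod_pow_eq_pow_sum, ← pow_mul, Finset.sum_add_distrib, Finset.sum_add_distrib,
    Finset.sum_ite_mem, Finset.sum_ite_mem, Finset.sum_ite_mem, univ_inter, univ_inter,
    univ_inter, sum_const, sum_const, sum_const, smul_eq_mul, smul_eq_mul, smul_eq_mul]
  congr 1
  have h1 := Finset.card_sdiff_add_card_inter F₁ F₂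
  have h2 := Finset.card_sdiff_add_card_inter F₂ F₁
  rw [Finset.inter_comm] at h2
  have h3 : (F₂ \ F₁).card = (F₁ \ F₂).card := by omega
  rw [h3, ← h1]
  have h4 : J = j + (J - j) := by omega
  nth_rw 1 3 [h4]
  ring_nf

theorem lower_two (hb : Function.Injective b) (hadj : ∀ a, adj a (b a)) (aadj : A → A → Prop)
    (hE : ∀ n D, (∀ a a', aadj a a' → n a * n a' ≤ D) → E n ≤ Fintype.card A ^ 2 * D)
    (F₁ F₂ : Finset A) (hF₁ : ∀ a ∈ F₁, ∀ s, adj a s → s = b a)
    (hF₂ : ∀ a ∈ F₂, ∀ s, adj a s → s = b a) (hFi₁ : ∀ a ∈ F₁, ∀ a' ∈ F₁, ¬ aadj a a')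
    (hFi₂ : ∀ a ∈ F₂, ∀ a' ∈ F₂, ¬ aadj a a') (hne : F₁ ≠ F₂) (hc : F₁.card = F₂.card) :
    ∃ c : ℝ, 0 < c ∧ ∀ J : ℕ, ∀ q : ℝ, 0 < q → q < 1 → 2 ^ J * (1 - q) ≤ 1 / 2 →
      c * J * (2 ^ J) ^ F₁.card ≤ ∑' n : A → ℕ, gt adj E q n := by
  classical
  set m : ℕ := Fintype.card A with hm
  refine ⟨(1 / 2) ^ (2 * m ^ 2 + m), by positivity, fun J q h0 h1 hJ => ?_⟩
  -- an element of `F₁ \ F₂`
  obtain ⟨x, hx1, hx2⟩ : ∃ x ∈ F₁, x ∉ F₂ := by
    by_contra hcon
    push Not at hcon
    exact hne (Finset.eq_of_subset_of_card_le hcon hc.ge)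
  have hdisj : (↑(range J) : Set ℕ).PairwiseDisjoint
      fun j => Fintype.piFinset (rng F₁ F₂ J j) := by
    intro j _ j' _ hjj
    rw [Function.onFun, Finset.disjoint_left]
    intro n hn hn'
    rw [Fintype.mem_piFinset] at hn hn'
    have h2 := hn x
    have h3 := hn' x
    simp only [rng, if_pos hx1, if_neg hx2, mem_Ico] at h2 h3
    rcases lt_or_gt_of_ne hjj with h | h
    · have : 2 ^ (j + 1) ≤ 2 ^ j' := Nat.pow_le_pow_right (by norm_num) h
      omega
    · have : 2 ^ (j' + 1) ≤ 2 ^ j := Nat.pow_le_pow_right (by norm_num) h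
      omega
  have hs := (gt_real_summable adj E b hb hadj h0 h1).sum_le_tsum
    ((range J).biUnion fun j => Fintype.piFinset (rng F₁ F₂ J j)) fun n _ =>
      (gt_pos adj E h0 h1 n).le
  refine le_trans ?_ hs
  rw [Finset.sum_biUnion hdisj]
  -- each term
  have hqJ : (1 / 2 : ℝ) ≤ q ^ 2 ^ J := by
    have h2 : 1 + ((2 ^ J : ℕ) : ℝ) * (q - 1) ≤ (1 + (q - 1)) ^ 2 ^ J :=
      one_add_mul_le_pow (by linarith) _
    have h3 : 1 + (q - 1) = q := by ring
    rw [h3] at h2
    push_cast at h2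
    nlinarith
  have hterm : ∀ j ∈ range J, ∀ n ∈ Fintype.piFinset (rng F₁ F₂ J j),
      (1 / 2 : ℝ) ^ (2 * m ^ 2 + m) ≤ gt adj E q n := by
    intro j hj n hn
    rw [mem_range] at hj
    rw [Fintype.mem_piFinset] at hn
    have hj1 : 2 ^ (j + 1) ≤ 2 ^ J := Nat.pow_le_pow_right (by norm_num) hj
    have hj2 : 2 ^ (J - j) ≤ 2 ^ J := Nat.pow_le_pow_right (by norm_num) (by omega)
    have hj3 : 0 < 2 ^ J := by positivity
    have hn0 : ∀ a, a ∉ F₁ ∪ F₂ → n a = 0 := by
      intro a ha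
      rw [mem_union, not_or] at ha
      have := hn a
      simpa only [rng, if_neg ha.1, if_neg ha.2, mem_singleton] using this
    have hnJ : ∀ a, n a ≤ 2 ^ J := by
      intro a
      have h2 := hn a
      unfold rng at h2
      split_ifs at h2
      · rw [mem_range] at h2
        omega
      · rw [mem_Ico] at h2
        omega
      · rw [mem_range] at h2
        omega
      · rw [mem_singleton] at h2
        omega
    have hX : ∀ a ∈ F₁, a ∉ F₂ → n a ≤ 2 ^ (j + 1) := by
      intro a ha ha'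
      have := hn a
      simp only [rng, if_pos ha, if_neg ha', mem_Ico] at this
      omega
    have hY : ∀ a ∈ F₂, a ∉ F₁ → n a ≤ 2 ^ (J - j) := by
      intro a ha ha'
      have := hn a
      simp only [rng, if_pos ha, if_neg ha', mem_range] at this
      omega
    have hpow : 2 ^ (j + 1) * 2 ^ (J - j) = 2 * 2 ^ J := by
      rw [← pow_add, ← pow_succ']
      congr 1
      omega
    have hED : E n ≤ m ^ 2 * (2 * 2 ^ J) := by
      refine hE n _ fun a a' h => ?_
      by_cases h1 : a ∈ F₁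
      · by_cases h1' : a' ∈ F₁
        · exact absurd h (hFi₁ a h1 a' h1')
        · by_cases h2' : a' ∈ F₂
          · by_cases h2 : a ∈ F₂
            · exact absurd h (hFi₂ a h2 a' h2')
            · rw [← hpow]
              exact Nat.mul_le_mul (hX a h1 h2) (hY a' h2' h1')
          · rw [hn0 a' (by simp [h1', h2']), mul_zero]
            exact Nat.zero_le _
      · by_cases h2 : a ∈ F₂
        · by_cases h2' : a' ∈ F₂
          · exact absurd h (hFi₂ a h2 a' h2')
          · by_cases h1' : a' ∈ F₁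
            · rw [← hpow, mul_comm]
              exact Nat.mul_le_mul (hX a' h1' h2') (hY a h2 h1)
            · rw [hn0 a' (by simp [h1', h2']), mul_zero]
              exact Nat.zero_le _
        · rw [hn0 a (by simp [h1, h2]), zero_mul]
          exact Nat.zero_le _
    have hsum : ∑ a, n a ≤ m * 2 ^ J := by
      have := Finset.sum_le_card_nsmul (univ : Finset A) n _ fun a _ => hnJ a
      rwa [smul_eq_mul, card_univ] at this
    rw [gt_supp adj E b hb hadj (F₁ ∪ F₂) (fun a ha s hs' => by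
      rcases mem_union.1 ha with h | h
      · exact hF₁ a h s hs'
      · exact hF₂ a h s hs') n hn0 h0 h1]
    have hexp : E n + ∑ a, n a ≤ 2 ^ J * (2 * m ^ 2 + m) := by
      calc E n + ∑ a, n a ≤ m ^ 2 * (2 * 2 ^ J) + m * 2 ^ J := add_le_add hED hsum
        _ = _ := by ring
    calc (1 / 2 : ℝ) ^ (2 * m ^ 2 + m) ≤ (q ^ 2 ^ J) ^ (2 * m ^ 2 + m) :=
          pow_le_pow_left₀ (by norm_num) hqJ _
      _ = q ^ (2 ^ J * (2 * m ^ 2 + m)) := (pow_mul _ _ _).symm
      _ ≤ _ := pow_le_pow_of_le_one h0.le h1.le hexp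
  calc (1 / 2 : ℝ) ^ (2 * m ^ 2 + m) * J * (2 ^ J) ^ F₁.card
      = ∑ _j ∈ range J, (((2 ^ J) ^ F₁.card : ℕ) : ℝ) * (1 / 2) ^ (2 * m ^ 2 + m) := by
        rw [sum_const, card_range, nsmul_eq_mul]
        push_cast
        ring
    _ ≤ _ := by
        refine Finset.sum_le_sum fun j hj => ?_
        rw [← card_box F₁ F₂ hc (mem_range.1 hj), ← nsmul_eq_mul]
        exact Finset.card_nsmul_le_sum _ _ _ (hterm j hj)

end

end Pool.Agent.H25.GW
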