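import Pool.Agent.H93.GS.Main
import Pool.Agent.H25.GW.Lower
import Pool.Agent.H25.GW.CombW
import Pool.Agent.H25.GW.Cusp0

/-!
# GW Main: the weight of a modular graph series (MP_b63d87_nt, helper25)
-/

set_option autoImplicit false

namespace Pool.Agent.H25.GW

open Finset UpperHalfPlane Filter Topology H93GS
open scoped MatrixGroups Manifold

theorem log_contra {G : ℝ → ℝ} {c C : ℝ} (hc : 0 < c) {w : ℕ}
    (h1 : ∀ J : ℕ, ∀ q : ℝ, 0 < q → q < 1 → 2 ^ J * (1 - q) ≤ 1 / 2 → c * J * (2 ^ J) ^ w ≤ G q)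
    (h2 : ∀ᶠ x : ℝ in atTop, G (1 - x⁻¹) ≤ C * x ^ w) : False := by
  have h3 : Tendsto (fun J : ℕ => (2 : ℝ) ^ (J + 1)) atTop atTop :=
    (tendsto_pow_atTop_atTop_of_one_lt one_lt_two).comp (tendsto_add_atTop_nat 1)
  have h4 := h3.eventually h2
  obtain ⟨J₀, hJ₀⟩ := exists_nat_gt (C * 2 ^ w / c)
  obtain ⟨J, h5, h6, h7⟩ := (h4.and ((eventually_ge_atTop J₀).and (eventually_ge_atTop 1))).exists
  have h8 : (1 : ℝ) ≤ 2 ^ J := one_le_pow₀ one_le_two
  have hx : (2 : ℝ) ≤ 2 ^ (J + 1) := by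
    rw [pow_succ]
    linarith
  have hx' : ((2 : ℝ) ^ (J + 1))⁻¹ ≤ 2⁻¹ := inv_anti₀ (by norm_num) hx
  have hx0 : 0 < ((2 : ℝ) ^ (J + 1))⁻¹ := by positivity
  have h9 := h1 J (1 - ((2 : ℝ) ^ (J + 1))⁻¹) (by norm_num at hx' ⊢; linarith) (by linarith) (by
    have : (2 : ℝ) ^ J * (1 - (1 - ((2 : ℝ) ^ (J + 1))⁻¹)) = 1 / 2 := by
      rw [pow_succ]
      field_simp
      ring
    exact this.le)
  have h10 := h9.trans h5
  have h11 : C * ((2 : ℝ) ^ (J + 1)) ^ w = C * 2 ^ w * (2 ^ J) ^ w := by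
    rw [pow_succ, mul_pow]
    ring
  rw [h11] at h10
  have h12 : 0 < ((2 : ℝ) ^ J) ^ w := by positivity
  have h13 := le_of_mul_le_mul_right h10 h12
  rw [div_lt_iff₀ hc] at hJ₀
  have h14 : (J₀ : ℝ) ≤ J := by exact_mod_cast h6
  nlinarith

section

variable {r : ℕ} (Γ : SimpleGraph (Fin r)) [DecidableRel Γ.Adj] (S : Finset (Fin r))

/-- the reduced series on the real interval -/
noncomputable def gR (q : ℝ) : ℝ := ∑' n : AA S → ℕ, gt (adjS Γ S) (EA Γ S) q n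

theorem main_aux (hΓ : Γ.Colorable 2) (b : AA S → BB S) (hb : Function.Injective b)
    (hadj : ∀ a, adjS Γ S a (b a)) (hS : ∀ i ∈ S, ∀ j ∈ S, ¬ Γ.Adj i j) (w : ℕ)
    (hw : ∀ S' R : Finset (Fin r), (∀ i ∈ S', ∀ j ∈ S', ¬ Γ.Adj i j) → S'.card = S.card →
      S' ⊆ R → Deg1 Γ R → R.card ≤ S.card + w)
    {R : Finset (Fin r)} (hSR : S ⊆ R) (hR : Deg1 Γ R) (hRc : R.card = S.card + w) (a k : ℝ)
    (hf : IsModularForm k fun τ : ℍ => Complex.exp (2 * Real.pi * Complex.I * a * (τ : ℂ)) *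
      graphSeries Γ (Complex.exp (2 * Real.pi * Complex.I * (τ : ℂ)))) :
    k + S.card / 2 = w ∧ ∃ C : ℝ, ∀ᶠ x : ℝ in atTop, gR Γ S (1 - x⁻¹) ≤ C * x ^ w := by
  obtain ⟨hd, ⟨Δ, v, hΔ, hv, htr⟩, hgr⟩ := hf
  set f : ℍ → ℂ := fun τ : ℍ => Complex.exp (2 * Real.pi * Complex.I * a * (τ : ℂ)) *
      graphSeries Γ (Complex.exp (2 * Real.pi * Complex.I * (τ : ℂ))) with hfdef
  set F : ℍ → ℂ := fun τ => f τ * ModularForm.eta (τ : ℂ) ^ S.card with hF
  set a' : ℝ := a + S.card / 24 with ha'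
  -- the formula for `F`
  have hFG : ∀ τ : ℍ, ‖F τ‖ = Real.exp (-(2 * Real.pi * a' * τ.im)) * ‖GG Γ S (qe τ)‖ := by
    intro τ
    have h3 : F τ = Complex.exp (2 * Real.pi * Complex.I * a' * (τ : ℂ)) * GG Γ S (qe τ) := by
      have h4 : graphSeries Γ (qe τ) * qinf (qe τ) ^ S.card = GG Γ S (qe τ) :=
        split_main Γ S hS (norm_qe_lt τ)
      rw [← h4]
      simp only [hF, hfdef]
      rw [eta_eq, mul_pow, ← Complex.exp_nat_mul]
      have h5 : Complex.exp (2 * Real.pi * Complex.I * a' * (τ : ℂ)) =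
          Complex.exp (2 * Real.pi * Complex.I * a * (τ : ℂ)) *
            Complex.exp (S.card * (2 * Real.pi * Complex.I * (τ : ℂ) / 24)) := by
        rw [← Complex.exp_add]
        congr 1
        rw [ha']
        push_cast
        ring
      rw [h5]
      unfold qe
      ring
    rw [h3, norm_mul, Complex.norm_exp]
    congr 2
    have h6 : (2 * Real.pi * Complex.I * a' * (τ : ℂ) : ℂ) =
        ((2 * Real.pi * a' : ℝ) : ℂ) * (Complex.I * (τ : ℂ)) := by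
      push_cast
      ring
    rw [h6, Complex.re_ofReal_mul]
    simp
  -- the weight
  set k' : ℝ := k + S.card / 2 with hk'
  have hmod : ∀ γ ∈ Δ, ∀ τ : ℍ, ‖F (γ • τ)‖ = ‖denom γ τ‖ ^ k' * ‖F τ‖ := by
    intro γ hγ τ
    have hd0 : 0 < ‖denom γ τ‖ := norm_pos_iff.2 (denom_ne_zero _ τ)
    have h3 : ‖F (γ • τ)‖ = ‖f (γ • τ)‖ * ‖ModularForm.eta ((γ • τ : ℍ) : ℂ)‖ ^ S.card := by
      rw [hF]
      exact (norm_mul _ _).trans (by rw [norm_pow])
    have h4 : ‖F τ‖ = ‖f τ‖ * ‖ModularForm.eta (τ : ℂ)‖ ^ S.card := by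
      rw [hF]
      exact (norm_mul _ _).trans (by rw [norm_pow])
    have h5 : ‖f (γ • τ)‖ = ‖denom γ τ‖ ^ k * ‖f τ‖ := by
      rw [htr γ hγ τ, norm_mul, norm_mul, hv γ hγ, one_mul, Complex.norm_cpow_real]
    rw [h3, h4, h5, norm_eta_smul, mul_pow, ← Real.rpow_natCast (‖denom γ τ‖ ^ _),
      ← Real.rpow_mul hd0.le, hk', Real.rpow_add hd0]
    have h6 : (1 / 2 : ℝ) * (S.card : ℝ) = S.card / 2 := by ring
    rw [h6]
    ring
  have hcusp : ∀ δ : SL(2, ℤ), ∃ C M : ℝ, ∀ τ : ℍ, 1 ≤ τ.im →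
      ‖F (δ • τ)‖ ≤ C * ‖denom δ τ‖ ^ k' * Real.exp (M * τ.im) := by
    intro δ
    obtain ⟨C, M, h3⟩ := hgr δ
    obtain ⟨C', h4⟩ := norm_eta_le
    refine ⟨C * C' ^ S.card, M, fun τ hτ => ?_⟩
    have hd0 : 0 < ‖denom δ τ‖ := norm_pos_iff.2 (denom_ne_zero _ τ)
    have h5 := h3 τ hτ
    have h6 := h4 τ hτ
    have h7 : ‖F (δ • τ)‖ = ‖f (δ • τ)‖ * (‖denom δ τ‖ ^ ((S.card : ℝ) / 2) *
        ‖ModularForm.eta (τ : ℂ)‖ ^ S.card) := by
      simp only [hF]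
      rw [norm_mul, norm_pow, norm_eta_smul, mul_pow, ← Real.rpow_natCast (‖denom δ τ‖ ^ _),
        ← Real.rpow_mul hd0.le]
      have h3 : (1 / 2 : ℝ) * (S.card : ℝ) = S.card / 2 := by ring
      rw [h3]
    rw [h7, hk', Real.rpow_add hd0]
    calc ‖f (δ • τ)‖ * (‖denom δ τ‖ ^ ((S.card : ℝ) / 2) * ‖ModularForm.eta (τ : ℂ)‖ ^ S.card)
        ≤ (C * ‖denom δ τ‖ ^ k * Real.exp (M * τ.im)) *
          (‖denom δ τ‖ ^ ((S.card : ℝ) / 2) * C' ^ S.card) := by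
          refine mul_le_mul h5 ?_ (by positivity) ((norm_nonneg _).trans h5)
          exact mul_le_mul_of_nonneg_left (pow_le_pow_left₀ (norm_nonneg _) h6 _) (by positivity)
      _ = _ := by ring
  have hFd : MDifferentiable 𝓘(ℂ) 𝓘(ℂ) F := hd.mul (eta_mdiff S.card)
  -- the bounds on the real interval
  obtain ⟨col, hc1, hc2⟩ := col_exists Γ S hΓ b hadj
  have hFcard : (outside S R).card = w := by
    have := card_outside S R hSR
    omega
  have hlow : ∀ q : ℝ, 0 < q → q < 1 → (1 - q)⁻¹ ^ w ≤ gR Γ S q := by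
    intro q h0 h1
    have h3 := lower_one (adjS Γ S) (EA Γ S) b hb hadj (aad Γ S) (fun n D h => EA_le Γ S n D h)
      (outside S R) (outside_only Γ S b hadj hSR hR) (outside_indep Γ S b hadj hSR hR) h0 h1
    rwa [hFcard] at h3
  have hupp : ∀ ε : ℝ, 0 < ε → ∃ C : ℝ, 0 < C ∧ ∀ q : ℝ, 1 / 2 ≤ q → q < 1 →
      gR Γ S q ≤ C * (1 - q) ^ (-((w : ℝ) + ε)) := fun ε hε =>
    upper (adjS Γ S) (EA Γ S) b hb hadj (aad Γ S) (fun n a a' h => edge_bound Γ S n a a' h) col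
      hc1 hc2 w (fun Z O h => cov_card Γ S hS b hb w hw Z O h) hε
  have hg0 : ∀ q : ℝ, 0 < q → q < 1 → 0 < gR Γ S q := by
    intro q h0 h1
    refine lt_of_lt_of_le ?_ (hlow q h0 h1)
    have : 0 < 1 - q := by linarith
    positivity
  have hpi := Real.pi_pos
  have hpi3 := Real.pi_gt_three
  have hpi4 := Real.pi_lt_four
  set φ : ℝ → ℝ := fun t => Real.exp (-(2 * Real.pi * a' * t)) *
    gR Γ S (Real.exp (-(2 * Real.pi * t))) with hφdef
  have hlt : ∀ t : ℝ, 0 < t → Real.exp (-(2 * Real.pi * t)) < 1 := fun t ht => by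
    rw [Real.exp_lt_one_iff]
    have : 0 < 2 * Real.pi * t := by positivity
    linarith
  have hφ : ∀ τ : ℍ, τ.re = 0 → ‖F τ‖ = φ τ.im := by
    intro τ hτ
    rw [hFG, qe_real hτ, GG_real, Complex.norm_real]
    have h3 := hg0 _ (Real.exp_pos _) (hlt _ τ.im_pos)
    change _ * ‖gR Γ S _‖ = _
    rw [Real.norm_of_nonneg h3.le]
  have hF0 : ∃ τ, F τ ≠ 0 := by
    refine ⟨⟨⟨0, 1⟩, one_pos⟩, norm_pos_iff.1 ?_⟩
    rw [hφ _ rfl]
    exact mul_pos (Real.exp_pos _) (hg0 _ (Real.exp_pos _) (hlt _ one_pos))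
  obtain ⟨l, κ, hκ, hlim⟩ := cusp0 hFd hΔ hmod hcusp hF0 φ hφ
  -- the exponential factor
  have hexp : ∀ t : ℝ, 0 < t → t ≤ 1 → Real.exp (-(2 * Real.pi * |a'|)) ≤
      Real.exp (-(2 * Real.pi * a' * t)) ∧
      Real.exp (-(2 * Real.pi * a' * t)) ≤ Real.exp (2 * Real.pi * |a'|) := by
    intro t ht ht1
    have h6 : |2 * Real.pi * a' * t| ≤ 2 * Real.pi * |a'| := by
      rw [abs_mul, abs_mul, abs_of_pos (by positivity : 0 < 2 * Real.pi), abs_of_pos ht]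
      have : 0 ≤ 2 * Real.pi * |a'| := by positivity
      nlinarith
    have h7 := abs_le.1 h6
    exact ⟨Real.exp_le_exp.2 (by linarith), Real.exp_le_exp.2 (by linarith)⟩
  have hinv : ∀ y : ℝ, 20 ≤ y → 0 < y⁻¹ ∧ y⁻¹ ≤ 1 ∧ 2 * Real.pi * y⁻¹ ≤ 1 / 2 := by
    intro y hy
    have hy0 : 0 < y := by linarith
    have h3 : y⁻¹ ≤ 20⁻¹ := inv_anti₀ (by norm_num) hy
    refine ⟨inv_pos.2 hy0, h3.trans (by norm_num), ?_⟩
    nlinarith
  obtain ⟨hl, hkw⟩ := expo (w := w) hκ hlim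
    ⟨Real.exp (-(2 * Real.pi * |a'|)) * (2 * Real.pi)⁻¹ ^ w, by positivity, by
      filter_upwards [eventually_ge_atTop 20] with y hy
      obtain ⟨h3, h4, h5⟩ := hinv y hy
      have hy0 : 0 < y := by linarith
      have h6 := hlow _ (Real.exp_pos _) (hlt _ h3)
      have h7 : (2 * Real.pi)⁻¹ * y ≤ (1 - Real.exp (-(2 * Real.pi * y⁻¹)))⁻¹ := by
        have h8 := Real.add_one_le_exp (-(2 * Real.pi * y⁻¹))
        have h9 : 1 - Real.exp (-(2 * Real.pi * y⁻¹)) ≤ 2 * Real.pi * y⁻¹ := by linarith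
        have h10 := inv_anti₀ (by linarith [hlt _ h3]) h9
        rwa [mul_inv, inv_inv] at h10
      rw [Real.rpow_natCast, hφdef]
      calc Real.exp (-(2 * Real.pi * |a'|)) * (2 * Real.pi)⁻¹ ^ w * y ^ w
          = Real.exp (-(2 * Real.pi * |a'|)) * ((2 * Real.pi)⁻¹ * y) ^ w := by
            rw [mul_pow]
            ring
        _ ≤ _ := mul_le_mul (hexp _ h3 h4).1
            ((pow_le_pow_left₀ (by positivity) h7 _).trans h6) (by positivity) (Real.exp_pos _).le⟩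
    fun ε hε => by
      obtain ⟨C, hC, h2⟩ := hupp ε hε
      refine ⟨Real.exp (2 * Real.pi * |a'|) * C, by positivity, ?_⟩
      filter_upwards [eventually_ge_atTop 20] with y hy
      obtain ⟨h3, h4, h5⟩ := hinv y hy
      have hy0 : 0 < y := by linarith
      have h8 := Real.add_one_le_exp (-(2 * Real.pi * y⁻¹))
      have h6 := h2 (Real.exp (-(2 * Real.pi * y⁻¹))) (by linarith) (hlt _ h3)
      have h7 : y⁻¹ ≤ 1 - Real.exp (-(2 * Real.pi * y⁻¹)) := by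
        have h9 := Real.add_one_le_exp (2 * Real.pi * y⁻¹)
        have h10 : Real.exp (-(2 * Real.pi * y⁻¹)) * Real.exp (2 * Real.pi * y⁻¹) = 1 := by
          rw [← Real.exp_add, neg_add_cancel, Real.exp_zero]
        have h11 : 0 < Real.exp (-(2 * Real.pi * y⁻¹)) := Real.exp_pos _
        have h12 : Real.exp (-(2 * Real.pi * y⁻¹)) * (2 * Real.pi * y⁻¹ + 1) ≤ 1 :=
          (mul_le_mul_of_nonneg_left h9 h11.le).trans_eq h10
        by_contra hcon
        push Not at hcon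
        have h13 : 6 * y⁻¹ ≤ 2 * Real.pi * y⁻¹ :=
          mul_le_mul_of_nonneg_right (by linarith) h3.le
        set z : ℝ := 2 * Real.pi * y⁻¹ with hz
        have h14 : (1 - y⁻¹) * (z + 1) < Real.exp (-z) * (z + 1) :=
          mul_lt_mul_of_pos_right (by linarith) (by linarith)
        have h15 : y⁻¹ * z ≤ y⁻¹ * (1 / 2) := mul_le_mul_of_nonneg_left h5 h3.le
        nlinarith
      have h9 : (1 - Real.exp (-(2 * Real.pi * y⁻¹))) ^ (-((w : ℝ) + ε)) ≤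
          y ^ ((w : ℝ) + ε) := by
        have h10 := Real.rpow_le_rpow_of_nonpos h3 h7 (z := -((w : ℝ) + ε)) (by
          have : (0 : ℝ) ≤ w := Nat.cast_nonneg w
          linarith)
        rwa [Real.inv_rpow hy0.le, ← Real.rpow_neg hy0.le, neg_neg] at h10
      rw [hφdef]
      calc Real.exp (-(2 * Real.pi * a' * y⁻¹)) * gR Γ S (Real.exp (-(2 * Real.pi * y⁻¹)))
          ≤ Real.exp (2 * Real.pi * |a'|) * (C * y ^ ((w : ℝ) + ε)) :=
            mul_le_mul (hexp _ h3 h4).2 (h6.trans (mul_le_mul_of_nonneg_left h9 hC.le))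
              (hg0 _ (Real.exp_pos _) (hlt _ h3)).le (Real.exp_pos _).le
        _ = _ := by ring
  refine ⟨hkw, ?_⟩
  -- the bound for the series
  subst hl
  simp only [zero_mul, Real.exp_zero, mul_one] at hlim
  rw [hkw] at hlim
  have hbd := hlim.eventually (gt_mem_nhds (show κ < κ + 1 by linarith))
  refine ⟨Real.exp (2 * Real.pi * |a'|) * ((κ + 1) * (2 * Real.pi) ^ w), ?_⟩
  have hy1 : ∀ x : ℝ, 21 ≤ x → 2 * Real.pi * (x - 1) ≤ 2 * Real.pi / (-Real.log (1 - x⁻¹)) ∧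
      2 * Real.pi / (-Real.log (1 - x⁻¹)) ≤ 2 * Real.pi * x := by
    intro x hx
    have hx0 : 0 < x := by linarith
    have h3 : x⁻¹ ≤ 21⁻¹ := inv_anti₀ (by norm_num) hx
    have h4 : 0 < x⁻¹ := inv_pos.2 hx0
    have h5 : 0 < 1 - x⁻¹ := by
      norm_num at h3 ⊢
      linarith
    have h6 := Real.log_le_sub_one_of_pos h5
    have h7 := Real.log_le_sub_one_of_pos (inv_pos.2 h5)
    rw [Real.log_inv] at h7
    have h8 : (1 - x⁻¹)⁻¹ - 1 = (x - 1)⁻¹ := by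
      have : x - 1 ≠ 0 := by linarith
      field_simp
      ring
    rw [h8] at h7
    have h9 : 0 < -Real.log (1 - x⁻¹) := by linarith
    constructor
    · rw [le_div_iff₀ h9]
      have h10 : 0 < x - 1 := by linarith
      have h11 : (x - 1) * -Real.log (1 - x⁻¹) ≤ 1 := by
        calc (x - 1) * -Real.log (1 - x⁻¹) ≤ (x - 1) * (x - 1)⁻¹ :=
              mul_le_mul_of_nonneg_left h7 h10.le
          _ = 1 := mul_inv_cancel₀ h10.ne'
      nlinarith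
    · rw [div_le_iff₀ h9]
      have h11 : 1 ≤ x * -Real.log (1 - x⁻¹) := by
        calc 1 = x * x⁻¹ := (mul_inv_cancel₀ hx0.ne').symm
          _ ≤ _ := mul_le_mul_of_nonneg_left (by linarith) hx0.le
      nlinarith
  have hyt : Tendsto (fun x : ℝ => 2 * Real.pi / (-Real.log (1 - x⁻¹))) atTop atTop := by
    refine tendsto_atTop_mono' _ ?_ ((tendsto_atTop_add_const_right atTop (-1 : ℝ)
      tendsto_id).const_mul_atTop (show (0 : ℝ) < 2 * Real.pi by positivity))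
    filter_upwards [eventually_ge_atTop 21] with x hx
    exact (hy1 x hx).1
  filter_upwards [hyt.eventually hbd, eventually_ge_atTop 21] with x h3 hx
  obtain ⟨h4, h5⟩ := hy1 x hx
  set y : ℝ := 2 * Real.pi / (-Real.log (1 - x⁻¹)) with hy
  have hx0 : 0 < x := by linarith
  have hy20 : 20 ≤ y := by nlinarith
  have hy0 : 0 < y := by linarith
  obtain ⟨h6, h7, -⟩ := hinv y hy20
  have h8 : 0 < 1 - x⁻¹ := by
    have h3 : x⁻¹ ≤ 21⁻¹ := inv_anti₀ (by norm_num) hx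
    norm_num at h3 ⊢
    linarith
  have h9 : Real.exp (-(2 * Real.pi * y⁻¹)) = 1 - x⁻¹ := by
    have h10 : 2 * Real.pi * y⁻¹ = -Real.log (1 - x⁻¹) := by
      rw [hy, inv_div]
      field_simp
    rw [h10, neg_neg, Real.exp_log h8]
  have h10 : φ y⁻¹ ≤ (κ + 1) * y ^ w := by
    rw [Real.rpow_neg hy0.le, Real.rpow_natCast, ← div_eq_mul_inv,
      div_lt_iff₀ (by positivity)] at h3
    exact h3.le
  have h11 : gR Γ S (1 - x⁻¹) ≤ Real.exp (2 * Real.pi * |a'|) * φ y⁻¹ := by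
    have h12 : φ y⁻¹ = Real.exp (-(2 * Real.pi * a' * y⁻¹)) * gR Γ S (1 - x⁻¹) := by
      rw [hφdef]
      simp only [h9]
    have h13 : 0 < gR Γ S (1 - x⁻¹) := hg0 _ h8 (by
      have : 0 < x⁻¹ := inv_pos.2 hx0
      linarith)
    have h14 := (hexp _ h6 h7).1
    have h15 : Real.exp (2 * Real.pi * |a'|) * Real.exp (-(2 * Real.pi * |a'|)) = 1 := by
      rw [← Real.exp_add, add_neg_cancel, Real.exp_zero]
    rw [h12]
    calc gR Γ S (1 - x⁻¹) = Real.exp (2 * Real.pi * |a'|) *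
          (Real.exp (-(2 * Real.pi * |a'|)) * gR Γ S (1 - x⁻¹)) := by
          rw [← mul_assoc, h15, one_mul]
      _ ≤ _ := by gcongr
  calc gR Γ S (1 - x⁻¹) ≤ Real.exp (2 * Real.pi * |a'|) * ((κ + 1) * y ^ w) :=
        h11.trans (mul_le_mul_of_nonneg_left h10 (Real.exp_pos _).le)
    _ ≤ Real.exp (2 * Real.pi * |a'|) * ((κ + 1) * (2 * Real.pi * x) ^ w) := by
        gcongr
    _ = _ := by
        rw [mul_pow]
        ring

end

/-- The weight of a modular graph series of a bipartite graph, and the logarithm criterion. -/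
theorem main_bip {r : ℕ} (Γ : SimpleGraph (Fin r)) [DecidableRel Γ.Adj] (hΓ : Γ.Colorable 2)
    (α w : ℕ)
    (hα : IsGreatest {m | ∃ S : Finset (Fin r), (∀ i ∈ S, ∀ j ∈ S, ¬ Γ.Adj i j) ∧ S.card = m} α)
    (hw : IsGreatest {m | ∃ S R : Finset (Fin r), (∀ i ∈ S, ∀ j ∈ S, ¬ Γ.Adj i j) ∧
      S.card = α ∧ S ⊆ R ∧ Deg1 Γ R ∧ R.card = α + m} w) (a k : ℝ)
    (hf : IsModularForm k fun τ : ℍ => Complex.exp (2 * Real.pi * Complex.I * a * (τ : ℂ)) *
      graphSeries Γ (Complex.exp (2 * Real.pi * Complex.I * (τ : ℂ)))) :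
    k = w - α / 2 ∧ ∀ S R₁ R₂ : Finset (Fin r), (∀ i ∈ S, ∀ j ∈ S, ¬ Γ.Adj i j) → S.card = α →
      S ⊆ R₁ → S ⊆ R₂ → Deg1 Γ R₁ → Deg1 Γ R₂ → R₁.card = α + w → R₂.card = α + w → R₁ = R₂ := by
  have hmax : ∀ S : Finset (Fin r), S.card = α → ∀ T : Finset (Fin r),
      (∀ i ∈ T, ∀ j ∈ T, ¬ Γ.Adj i j) → T.card ≤ S.card := fun S hSc T hT => by
    rw [hSc]
    exact hα.2 ⟨T, hT, rfl⟩
  have hw' : ∀ S : Finset (Fin r), S.card = α → ∀ S' R : Finset (Fin r),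
      (∀ i ∈ S', ∀ j ∈ S', ¬ Γ.Adj i j) → S'.card = S.card → S' ⊆ R → Deg1 Γ R →
      R.card ≤ S.card + w := by
    intro S hSc S' R h1 h2 h3 h4
    have h5 : S'.card ≤ R.card := card_le_card h3
    rw [hSc] at h2 ⊢
    have h6 := hw.2 (show R.card - α ∈ _ from ⟨S', R, h1, h2, h3, h4, by omega⟩)
    omega
  constructor
  · obtain ⟨S, R, h1, h2, h3, h4, h5⟩ := hw.1
    obtain ⟨b, hb, hadj⟩ := bip_of_max Γ S hΓ h1 (hmax S h2)
    have h6 := (main_aux Γ S hΓ b hb hadj h1 w (hw' S h2) h3 h4 (by rw [h2, h5]) a k hf).1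
    rw [h2] at h6
    linarith
  · intro S R₁ R₂ h1 h2 h3 h3' h4 h4' h5 h5'
    by_contra hne
    obtain ⟨b, hb, hadj⟩ := bip_of_max Γ S hΓ h1 (hmax S h2)
    obtain ⟨C, hC⟩ := (main_aux Γ S hΓ b hb hadj h1 w (hw' S h2) h3 h4 (by rw [h2, h5]) a k hf).2
    have hc1 := card_outside S R₁ h3
    have hc2 := card_outside S R₂ h3'
    have hcw : (outside S R₁).card = w := by omega
    obtain ⟨c, hc, h6⟩ := lower_two (adjS Γ S) (EA Γ S) b hb hadj (aad Γ S)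
      (fun n D h => EA_le Γ S n D h) (outside S R₁) (outside S R₂)
      (outside_only Γ S b hadj h3 h4) (outside_only Γ S b hadj h3' h4')
      (outside_indep Γ S b hadj h3 h4) (outside_indep Γ S b hadj h3' h4')
      (fun h => hne (outside_inj S h3 h3' h)) (by omega)
    rw [hcw] at h6
    exact log_contra hc h6 hC

end Pool.Agent.H25.GW
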